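import Mathlib

/-!
# An order on the labels along the cycles of a permutation
-/

namespace Pool.Agent.H55.SC

/-- For a permutation `τ` of `0, …, m` there is an order of the labels, starting with `0`, in which
no label comes more than one place after its image. -/
theorem exists_order {m : ℕ} (τ : Equiv.Perm (Fin (m + 1))) :
    ∃ p : Fin (m + 1) → ℕ, Function.Injective p ∧ p 0 = 0 ∧ (∀ c, p c ≤ p (τ c) + 1) ∧
      ∀ c, p c ≤ m := by
  classical
  set M := orderOf τ with hM
  have hM0 : 0 < M := orderOf_pos τ
  have hex : ∀ c, ∃ r : ℕ, ∃ k : ℕ, ((τ ^ k) c).val = r := fun c => ⟨_, 0, rfl⟩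
  let R : Fin (m + 1) → ℕ := fun c => Nat.find (hex c)
  have hR : ∀ c, ∃ k : ℕ, ((τ ^ k) c).val = R c := fun c => Nat.find_spec (hex c)
  have hRmin : ∀ c k, R c ≤ ((τ ^ k) c).val := fun c k => Nat.find_min' (hex c) ⟨k, rfl⟩
  let K : Fin (m + 1) → ℕ := fun c => Nat.find (hR c)
  have hK : ∀ c, ((τ ^ (K c)) c).val = R c := fun c => Nat.find_spec (hR c)
  have hKmin : ∀ c k, ((τ ^ k) c).val = R c → K c ≤ k := fun c k h => Nat.find_min' (hR c) h
  have hKM : ∀ c, K c < M := by
    intro c
    have h1 : ((τ ^ (K c % M)) c).val = R c := by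
      rw [hM, ← pow_mod_orderOf] at *
      rw [pow_mod_orderOf, ← pow_mod_orderOf, Nat.mod_mod, pow_mod_orderOf]
      exact hK c
    exact lt_of_le_of_lt (hKmin c _ h1) (Nat.mod_lt _ hM0)
  have hRτ : ∀ c, R (τ c) = R c := by
    intro c
    apply le_antisymm
    · obtain ⟨k, hk⟩ := hR c
      have h1 := hRmin (τ c) (k + (M - 1))
      have h2 : (τ ^ (k + (M - 1))) (τ c) = (τ ^ k) c := by
        rw [← Equiv.Perm.mul_apply, ← pow_succ, show k + (M - 1) + 1 = k + M by omega, pow_add,
          hM, pow_orderOf_eq_one, mul_one]
      rw [h2, hk] at h1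
      exact h1
    · obtain ⟨k, hk⟩ := hR (τ c)
      have h1 := hRmin c (k + 1)
      have h2 : (τ ^ (k + 1)) c = (τ ^ k) (τ c) := by
        rw [pow_succ, Equiv.Perm.mul_apply]
      rw [h2, hk] at h1
      exact h1
  have hKτ : ∀ c, K c ≤ K (τ c) + 1 := by
    intro c
    apply hKmin
    rw [pow_succ, Equiv.Perm.mul_apply, hK, hRτ]
  let P : Fin (m + 1) → ℕ := fun c => R c * M + K c
  have hPinj : Function.Injective P := by
    intro a b hab
    have h1 : R a = R b := by
      have ha : P a / M = R a := by
        show (R a * M + K a) / M = R a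
        rw [mul_comm, Nat.mul_add_div hM0, Nat.div_eq_of_lt (hKM a), add_zero]
      have hb : P b / M = R b := by
        show (R b * M + K b) / M = R b
        rw [mul_comm, Nat.mul_add_div hM0, Nat.div_eq_of_lt (hKM b), add_zero]
      rw [← ha, ← hb, hab]
    have h2 : K a = K b := by
      have : R a * M + K a = R b * M + K b := hab
      rw [h1] at this
      omega
    have h3 := hK a
    have h4 := hK b
    rw [h2, h1, ← h4] at h3
    exact (τ ^ (K b)).injective (Fin.ext h3)
  have hPτ : ∀ c, P c ≤ P (τ c) + 1 := by
    intro c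
    show R c * M + K c ≤ R (τ c) * M + K (τ c) + 1
    rw [hRτ]
    have := hKτ c
    omega
  have hP0 : P 0 = 0 := by
    have h1 : R 0 = 0 := by
      have := hRmin 0 0
      simpa using this
    have h2 : K 0 = 0 := by
      have := hKmin 0 0 (by rw [h1]; simp)
      omega
    show R 0 * M + K 0 = 0
    rw [h1, h2]; simp
  refine ⟨fun c => (Finset.univ.filter fun x => P x < P c).card, ?_, ?_, ?_, ?_⟩
  · intro a b hab
    by_contra hne
    have hne' : P a ≠ P b := fun h => hne (hPinj h)
    have key : ∀ a b, P a < P b → (Finset.univ.filter fun x => P x < P a).card <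
        (Finset.univ.filter fun x => P x < P b).card := by
      intro a b hlt
      apply Finset.card_lt_card
      rw [Finset.ssubset_iff_of_subset]
      · exact ⟨a, by simp [hlt], by simp⟩
      · intro x hx
        simp only [Finset.mem_filter, Finset.mem_univ, true_and] at hx ⊢
        omega
    simp only at hab
    rcases lt_or_gt_of_ne hne' with h | h
    · exact absurd hab (key a b h).ne
    · exact absurd hab (key b a h).ne'
  · simp only [hP0]
    simp
  · intro c
    calc (Finset.univ.filter fun x => P x < P c).card
        ≤ (insert (τ c) (Finset.univ.filter fun x => P x < P (τ c))).card := by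
          apply Finset.card_le_card
          intro x hx
          simp only [Finset.mem_filter, Finset.mem_univ, true_and, Finset.mem_insert] at hx ⊢
          have := hPτ c
          by_cases hxe : P x = P (τ c)
          · left; exact hPinj hxe
          · right; omega
      _ ≤ _ := Finset.card_insert_le _ _
  · intro c
    have : (Finset.univ.filter fun x => P x < P c).card < (Finset.univ : Finset (Fin (m + 1))).card := by
      apply Finset.card_lt_card
      rw [Finset.ssubset_iff_of_subset (Finset.filter_subset _ _)]
      exact ⟨c, by simp, by simp⟩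
    rw [Finset.card_univ, Fintype.card_fin] at this
    show (Finset.univ.filter fun x => P x < P c).card ≤ m
    omega

end Pool.Agent.H55.SC
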