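import Pool.Agent.H55.SC.Ring
import Pool.Agent.H55.SC.Perm

/-!
# Cutting every carrier twice
-/

namespace Pool.Agent.H55.SC

open Relation

/-- a model of a complete graph in the circulant graph, with branch sets `P i` -/
structure NM (n : ℕ) (D : Finset ℕ) {ι : Type} (P : ι → ℕ → Prop) : Prop where
  lt : ∀ i x, P i x → x < n
  ne : ∀ i, ∃ x, P i x
  con : ∀ i x y, P i x → P i y → RP n D (P i) x y
  dis : ∀ i j, i ≠ j → ∀ x, P i x → ¬ P j x
  adj : ∀ i j, i ≠ j → ∃ x y, P i x ∧ P j y ∧ A n D x y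

/-- **Ring lemma.** `m` carriers, in each of `2 (m + 1)` epochs any two of which are adjacent, give
`2 m` branch sets. -/
theorem ring {n d m E L : ℕ} {D : Finset ℕ} (hE : 0 < E)
    (h : Dat n d (2 * (m + 1) * E) L D) {g : ℕ → Fin (m + 1) → ZMod d → Prop}
    (F : Frm n d (2 * (m + 1) * E) D 0 g) (τ : Equiv.Perm (Fin (m + 1)))
    (hep : ∀ e, e < 2 * (m + 1) → ∀ i j, i ≠ 0 → j ≠ 0 → i ≠ j → ∃ b, E * e ≤ b ∧
      b < E * (e + 1) ∧ ∃ r r', g b i r ∧ g b j r' ∧ Hadj D r r')
    (hcl : ∀ i, i ≠ 0 → τ i ≠ 0 →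
      ∃ r, g (2 * (m + 1) * E) i r ∧ g 0 (τ i) (r - (n : ZMod d))) :
    ∃ P : {i : Fin (m + 1) // i ≠ 0} × Bool → ℕ → Prop, NM n D P := by
  obtain ⟨p, hinj, hp0, hpτ, hpm⟩ := exists_order τ
  set T := 2 * (m + 1) * E with hT
  have hT0 : 0 < T := by positivity
  -- order facts
  have hp1 : ∀ i, i ≠ 0 → 1 ≤ p i := by
    intro i hi
    rcases Nat.eq_zero_or_pos (p i) with h0 | h0
    · exact absurd (hinj (h0.trans hp0.symm)) hi
    · exact h0
  have hEmono : ∀ {a b : ℕ}, a ≤ b → E * a ≤ E * b := fun hab => Nat.mul_le_mul_left _ hab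
  have hEsmono : ∀ {a b : ℕ}, a < b → E * a < E * b := fun hab =>
    Nat.mul_lt_mul_of_pos_left hab hE
  have hTE : ∀ {a : ℕ}, a ≤ 2 * (m + 1) → E * a ≤ T := by
    intro a ha
    calc E * a ≤ E * (2 * (m + 1)) := hEmono ha
      _ = T := by rw [hT]; ring
  let P : {i : Fin (m + 1) // i ≠ 0} × Bool → ℕ → Prop := fun c x =>
    if c.2 then Car n d T L g c.1.1 (E * p c.1.1) (E * (p c.1.1 + (m + 1))) x
    else Car n d T L g c.1.1 (E * (p c.1.1 + (m + 1))) (T + 1) x ∨
      (τ c.1.1 ≠ 0 ∧ Car n d T L g (τ c.1.1) 0 (E * p (τ c.1.1)) x)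
  have hPt : ∀ (i : {i : Fin (m + 1) // i ≠ 0}) x, P (i, true) x ↔
      Car n d T L g i.1 (E * p i.1) (E * (p i.1 + (m + 1))) x := by
    intro i x; simp [P]
  have hPf : ∀ (i : {i : Fin (m + 1) // i ≠ 0}) x, P (i, false) x ↔
      (Car n d T L g i.1 (E * (p i.1 + (m + 1))) (T + 1) x ∨
      (τ i.1 ≠ 0 ∧ Car n d T L g (τ i.1) 0 (E * p (τ i.1)) x)) := by
    intro i x; simp [P]
  -- two carriers are adjacent in an epoch
  have hadjE : ∀ {i j : Fin (m + 1)} {s e s' e' : ℕ} (q : ℕ), q < 2 * (m + 1) → i ≠ 0 → j ≠ 0 →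
      i ≠ j → s ≤ E * q → E * (q + 1) ≤ e → s' ≤ E * q → E * (q + 1) ≤ e' →
      ∃ x y, Car n d T L g i s e x ∧ Car n d T L g j s' e' y ∧ A n D x y := by
    intro i j s e s' e' q hq hi hj hij h1 h2 h3 h4
    obtain ⟨b, hb1, hb2, r, r', hr, hr', hH⟩ := hep q hq i j hi hj hij
    have : E * (q + 1) ≤ T := hTE hq
    exact car_adj h (by omega) (by omega) (by omega) (by omega) (by omega) hr hr' hH
  -- adjacency between a middle part and an outer part
  have hmix : ∀ (i j : {i : Fin (m + 1) // i ≠ 0}), ∃ x y, P (i, true) x ∧ P (j, false) y ∧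
      A n D x y := by
    intro i j
    have hi1 := hp1 i.1 i.2
    have hj1 := hp1 j.1 j.2
    have him := hpm i.1
    have hjm := hpm j.1
    rcases lt_trichotomy (p i.1) (p j.1) with hlt | heq | hgt
    · -- `i` is cut before `j`
      have h1 := hpτ j.1
      have h2 : 1 ≤ p (τ j.1) := by omega
      have h3 : τ j.1 ≠ 0 := by
        intro h0; rw [h0, hp0] at h2; omega
      by_cases hij : i.1 = τ j.1
      · obtain ⟨x, y, hx, hy, hxy⟩ := car_cut h F (i := i.1) i.2 (s := 0) (m := E * p i.1)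
          (e := E * (p i.1 + (m + 1))) (by have := hEsmono hi1; omega)
          (hEsmono (by omega)) (hTE (by omega))
        refine ⟨y, x, (hPt i y).2 hy, (hPf j x).2 (Or.inr ⟨h3, ?_⟩), hxy.symm⟩
        rw [← hij]; exact hx
      · have h4 : p i.1 ≠ p (τ j.1) := fun h0 => hij (hinj h0)
        obtain ⟨x, y, hx, hy, hxy⟩ := hadjE (i := i.1) (j := τ j.1) (s := E * p i.1)
          (e := E * (p i.1 + (m + 1))) (s' := 0) (e' := E * p (τ j.1)) (p i.1) (by omega) i.2 h3
          hij le_rfl (hEmono (by omega)) (by omega) (hEmono (by omega))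
        exact ⟨x, y, (hPt i x).2 hx, (hPf j y).2 (Or.inr ⟨h3, hy⟩), hxy⟩
    · have hij : i = j := Subtype.ext (hinj heq)
      subst hij
      obtain ⟨x, y, hx, hy, hxy⟩ := car_cut h F (i := i.1) i.2 (s := E * p i.1)
          (m := E * (p i.1 + (m + 1))) (e := T + 1) (hEsmono (by omega))
          (by have := hTE (a := p i.1 + (m + 1)) (by omega); omega) (hTE (by omega))
      exact ⟨x, y, (hPt i x).2 hx, (hPf i y).2 (Or.inl hy), hxy⟩
    · have hij : i.1 ≠ j.1 := by
        intro h0; rw [h0] at hgt; omega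
      obtain ⟨x, y, hx, hy, hxy⟩ := hadjE (i := i.1) (j := j.1) (s := E * p i.1)
          (e := E * (p i.1 + (m + 1))) (s' := E * (p j.1 + (m + 1))) (e' := T + 1)
          (p j.1 + (m + 1)) (by omega) i.2 j.2 hij (hEmono (by omega)) (hEmono (by omega)) le_rfl
          (by have := hTE (a := p j.1 + (m + 1) + 1) (by omega); omega)
      exact ⟨x, y, (hPt i x).2 hx, (hPf j y).2 (Or.inl hy), hxy⟩
  refine ⟨P, ?_, ?_, ?_, ?_, ?_⟩
  · rintro ⟨i, c⟩ x hx
    cases c
    · rcases (hPf i x).1 hx with h1 | h1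
      · exact h1.1
      · exact h1.2.1
    · exact ((hPt i x).1 hx).1
  · rintro ⟨i, c⟩
    have him := hpm i.1
    cases c
    · obtain ⟨x, hx⟩ := car_ne h F i.2 (s := E * (p i.1 + (m + 1))) (e := T + 1)
        (by have := hTE (a := p i.1 + (m + 1)) (by omega); omega)
        (by
          have h1 := hTE (a := p i.1 + (m + 1) + 1) (by omega)
          have h2 := hEsmono (a := p i.1 + (m + 1)) (b := p i.1 + (m + 1) + 1) (by omega)
          omega)
      exact ⟨x, (hPf i x).2 (Or.inl hx)⟩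
    · obtain ⟨x, hx⟩ := car_ne h F i.2 (s := E * p i.1) (e := E * (p i.1 + (m + 1)))
        (hEsmono (by omega))
        (by
          have h1 := hTE (a := p i.1 + 1) (by omega)
          have h2 := hEsmono (a := p i.1) (b := p i.1 + 1) (by omega)
          omega)
      exact ⟨x, (hPt i x).2 hx⟩
  · rintro ⟨i, c⟩ x y hx hy
    cases c
    · -- the outer part
      have him := hpm i.1
      have mono1 : ∀ {a b}, RP n D (Car n d T L g i.1 (E * (p i.1 + (m + 1))) (T + 1)) a b →
          RP n D (P (i, false)) a b := fun hab => hab.mono fun z hz => (hPf i z).2 (Or.inl hz)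
      have mono2 : τ i.1 ≠ 0 → ∀ {a b}, RP n D (Car n d T L g (τ i.1) 0 (E * p (τ i.1))) a b →
          RP n D (P (i, false)) a b :=
        fun h0 _ _ hab => hab.mono fun z hz => (hPf i z).2 (Or.inr ⟨h0, hz⟩)
      have link : τ i.1 ≠ 0 → ∃ a b, Car n d T L g i.1 (E * (p i.1 + (m + 1))) (T + 1) a ∧
          Car n d T L g (τ i.1) 0 (E * p (τ i.1)) b ∧ RP n D (P (i, false)) a b := by
        intro h0
        obtain ⟨r, hr1, hr2⟩ := hcl i.1 i.2 h0
        obtain ⟨a, b, e1, e2, e3, e4, e5⟩ := h.closing hT0 r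
        have c1 : Car n d T L g i.1 (E * (p i.1 + (m + 1))) (T + 1) a := by
          refine ⟨e5.1, ?_, ?_, ?_⟩
          · rw [e1]; exact hTE (by omega)
          · rw [e1]; omega
          · rw [e1, e3]; exact hr1
        have c2 : Car n d T L g (τ i.1) 0 (E * p (τ i.1)) b := by
          refine ⟨e5.2.1, ?_, ?_, ?_⟩
          · omega
          · rw [e2]
            have := hEsmono (hp1 _ h0)
            omega
          · rw [e2, e4]; exact hr2
        exact ⟨a, b, c1, c2, RP.single ((hPf i a).2 (Or.inl c1)) ((hPf i b).2 (Or.inr ⟨h0, c2⟩))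
          e5⟩
      rcases (hPf i x).1 hx with h1 | ⟨h0, h1⟩ <;> rcases (hPf i y).1 hy with h2 | ⟨h0', h2⟩
      · exact mono1 (car_conn h F i.2 h1 h2)
      · obtain ⟨a, b, ha, hb, hab⟩ := link h0'
        exact ((mono1 (car_conn h F i.2 h1 ha)).trans hab).trans
          (mono2 h0' (car_conn h F h0' hb h2))
      · obtain ⟨a, b, ha, hb, hab⟩ := link h0
        exact ((mono2 h0 (car_conn h F h0 h1 hb)).trans hab.symm).trans
          (mono1 (car_conn h F i.2 ha h2))
      · exact mono2 h0 (car_conn h F h0 h1 h2)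
    · have h1 := (hPt i x).1 hx
      have h2 := (hPt i y).1 hy
      exact (car_conn h F i.2 h1 h2).mono fun z hz => (hPt i z).2 hz
  · -- disjointness
    have dmix : ∀ (i j : {i : Fin (m + 1) // i ≠ 0}) x, P (i, true) x → P (j, false) x →
        False := by
      intro i j x hx hy
      have hx' := (hPt i x).1 hx
      rcases (hPf j x).1 hy with h1 | ⟨h0, h1⟩
      · by_cases hij : i.1 = j.1
        · exact car_dis F i.2 j.2 (Or.inr (Or.inl (by rw [hij]))) hx' h1
        · exact car_dis F i.2 j.2 (Or.inl hij) hx' h1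
      · by_cases hij : i.1 = τ j.1
        · exact car_dis F i.2 h0 (Or.inr (Or.inr (by rw [hij]))) hx' h1
        · exact car_dis F i.2 h0 (Or.inl hij) hx' h1
    rintro ⟨i, c⟩ ⟨j, c'⟩ hne x hx hy
    cases c <;> cases c'
    · have hij : i.1 ≠ j.1 := fun h0 => hne (by rw [Subtype.ext h0])
      have him := hpm i.1
      have hjm := hpm j.1
      rcases (hPf i x).1 hx with h1 | ⟨h0, h1⟩ <;> rcases (hPf j x).1 hy with h2 | ⟨h0', h2⟩
      · exact car_dis F i.2 j.2 (Or.inl hij) h1 h2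
      · have := hpm (τ j.1)
        exact car_dis F i.2 h0' (Or.inr (Or.inr (hEmono (by omega)))) h1 h2
      · have := hpm (τ i.1)
        exact car_dis F h0 j.2 (Or.inr (Or.inl (hEmono (by omega)))) h1 h2
      · exact car_dis F h0 h0' (Or.inl fun h3 => hij (τ.injective h3)) h1 h2
    · exact dmix j i x hy hx
    · exact dmix i j x hx hy
    · have hij : i.1 ≠ j.1 := fun h0 => hne (by rw [Subtype.ext h0])
      exact car_dis F i.2 j.2 (Or.inl hij) ((hPt i x).1 hx) ((hPt j x).1 hy)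
  · -- adjacency
    rintro ⟨i, c⟩ ⟨j, c'⟩ hne
    cases c <;> cases c'
    · have hij : i.1 ≠ j.1 := fun h0 => hne (by rw [Subtype.ext h0])
      have him := hpm i.1
      have hjm := hpm j.1
      obtain ⟨x, y, hx, hy, hxy⟩ := hadjE (i := i.1) (j := j.1) (s := E * (p i.1 + (m + 1)))
          (e := T + 1) (s' := E * (p j.1 + (m + 1))) (e' := T + 1)
          (2 * m + 1) (by omega) i.2 j.2 hij (hEmono (by omega))
          (by have := hTE (a := 2 * m + 1 + 1) (by omega); omega) (hEmono (by omega))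
          (by have := hTE (a := 2 * m + 1 + 1) (by omega); omega)
      exact ⟨x, y, (hPf i x).2 (Or.inl hx), (hPf j y).2 (Or.inl hy), hxy⟩
    · obtain ⟨x, y, hx, hy, hxy⟩ := hmix j i
      exact ⟨y, x, hy, hx, hxy.symm⟩
    · exact hmix i j
    · have hij : i.1 ≠ j.1 := fun h0 => hne (by rw [Subtype.ext h0])
      have him := hpm i.1
      have hjm := hpm j.1
      obtain ⟨x, y, hx, hy, hxy⟩ := hadjE (i := i.1) (j := j.1) (s := E * p i.1)
          (e := E * (p i.1 + (m + 1))) (s' := E * p j.1) (e' := E * (p j.1 + (m + 1)))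
          m (by omega) i.2 j.2 hij (hEmono him) (hEmono (by have := hp1 i.1 i.2; omega))
          (hEmono hjm) (hEmono (by have := hp1 j.1 j.2; omega))
      exact ⟨x, y, (hPt i x).2 hx, (hPt j y).2 hy, hxy⟩

end Pool.Agent.H55.SC
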