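import Pool.Agent.H55.SC.Defs
import Pool.Agent.H55.SC.Cut

/-!
# From natural numbers to the circulant graph
-/

namespace Pool.Agent.H55.SC

open Relation

lemma circ_adj {n : ℕ} {D : Finset ℕ} {u v : ZMod n} :
    (circ n D).Adj u v ↔ u ≠ v ∧ ∃ δ ∈ D, u = v + (δ : ZMod n) ∨ v = u + (δ : ZMod n) := by
  unfold circ
  rw [SimpleGraph.circulantGraph_adj]
  simp only [Set.mem_ofPred_eq]
  constructor
  · rintro ⟨h, ⟨δ, hδ, h1⟩ | ⟨δ, hδ, h1⟩⟩
    · exact ⟨h, δ, hδ, Or.inl (by rw [← h1]; ring)⟩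
    · exact ⟨h, δ, hδ, Or.inr (by rw [← h1]; ring)⟩
  · rintro ⟨h, δ, hδ, h1 | h1⟩
    · exact ⟨h, Or.inl ⟨δ, hδ, by rw [h1]; ring⟩⟩
    · exact ⟨h, Or.inr ⟨δ, hδ, by rw [h1]; ring⟩⟩

lemma adj_of_A {n : ℕ} {D : Finset ℕ} {x y : ℕ} (h : A n D x y) :
    (circ n D).Adj (x : ZMod n) (y : ZMod n) := by
  obtain ⟨hx, hy, hne, δ, hδ, h⟩ := h
  rw [circ_adj]
  refine ⟨?_, δ, hδ, ?_⟩
  · intro heq
    rw [ZMod.natCast_eq_natCast_iff'] at heq
    rw [Nat.mod_eq_of_lt hx, Nat.mod_eq_of_lt hy] at heq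
    exact hne heq
  · rcases h with h | h | h | h
    · right; rw [← h]; push_cast; ring
    · left; rw [← h]; push_cast; ring
    · right
      have := congrArg (fun z : ℕ => (z : ZMod n)) h
      push_cast at this
      rw [ZMod.natCast_self, add_zero] at this
      exact this.symm
    · left
      have := congrArg (fun z : ℕ => (z : ZMod n)) h
      push_cast at this
      rw [ZMod.natCast_self, add_zero] at this
      exact this.symm

lemma A_of_adj {n : ℕ} [NeZero n] {D : Finset ℕ} (hD : ∀ δ ∈ D, δ < n) {u v : ZMod n}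
    (h : (circ n D).Adj u v) : A n D u.val v.val := by
  rw [circ_adj] at h
  obtain ⟨hne, δ, hδ, h⟩ := h
  have hu := ZMod.val_lt u
  have hv := ZMod.val_lt v
  have hδn := hD δ hδ
  have key : ∀ {u v : ZMod n}, u = v + (δ : ZMod n) → v.val + δ = u.val ∨
      v.val + δ = u.val + n := by
    intro u v h
    have hv := ZMod.val_lt v
    have h1 : u.val = (v.val + δ) % n := by
      rw [h, ZMod.val_add, ZMod.val_natCast, Nat.mod_eq_of_lt hδn]
    by_cases hlt : v.val + δ < n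
    · rw [Nat.mod_eq_of_lt hlt] at h1
      left; exact h1.symm
    · right
      rw [Nat.mod_eq_sub_mod (by omega), Nat.mod_eq_of_lt (by omega)] at h1
      omega
  refine ⟨hu, hv, fun h => hne (ZMod.val_injective n h), δ, hδ, ?_⟩
  rcases h with h | h
  · rcases key h with h | h
    · right; left; exact h
    · right; right; right; exact h
  · rcases key h with h | h
    · left; exact h
    · right; right; left; exact h

lemma connected_of_rtg {V : Type} {G : SimpleGraph V} {S : Set V} (hne : S.Nonempty)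
    (h : ∀ x ∈ S, ∀ y ∈ S, ReflTransGen (fun a b => a ∈ S ∧ b ∈ S ∧ G.Adj a b) x y) :
    (G.induce S).Connected := by
  obtain ⟨x0, hx0⟩ := hne
  rw [SimpleGraph.connected_iff]
  refine ⟨?_, ⟨⟨x0, hx0⟩⟩⟩
  rintro ⟨x, hx⟩ ⟨y, hy⟩
  have key : ∀ z, ReflTransGen (fun a b => a ∈ S ∧ b ∈ S ∧ G.Adj a b) x z →
      ∃ hz : z ∈ S, (G.induce S).Reachable ⟨x, hx⟩ ⟨z, hz⟩ := by
    intro z hz
    induction hz with
    | refl => exact ⟨hx, SimpleGraph.Reachable.refl _⟩
    | tail _ h2 ih =>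
      obtain ⟨hb, hr⟩ := ih
      refine ⟨h2.2.1, hr.trans (SimpleGraph.Adj.reachable ?_)⟩
      rw [SimpleGraph.comap_adj]
      exact h2.2.2
  obtain ⟨_, hr⟩ := key y (h x hx y hy)
  exact hr

theorem NM.minor {n : ℕ} {D : Finset ℕ} {ι : Type} [Fintype ι] {P : ι → ℕ → Prop}
    (h : NM n D P) {k : ℕ} (hk : k ≤ Fintype.card ι) : CliqueMinor (circ n D) k := by
  classical
  obtain ⟨e⟩ : Nonempty (Fin k ↪ ι) := by
    rw [Function.Embedding.nonempty_iff_card_le, Fintype.card_fin]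
    exact hk
  refine ⟨fun i => {v | ∃ x, P (e i) x ∧ (x : ZMod n) = v}, ?_, ?_, ?_⟩
  · intro i
    apply connected_of_rtg
    · obtain ⟨x, hx⟩ := h.ne (e i)
      exact ⟨x, x, hx, rfl⟩
    · rintro _ ⟨x, hx, rfl⟩ _ ⟨y, hy, rfl⟩
      have h1 := h.con (e i) x y hx hy
      unfold RP at h1
      induction h1 with
      | refl => exact ReflTransGen.refl
      | tail _ h2 ih =>
        exact (ih h2.1).tail ⟨⟨_, h2.1, rfl⟩, ⟨_, h2.2.1, rfl⟩, adj_of_A h2.2.2⟩
  · intro i j hij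
    rw [Set.disjoint_left]
    rintro _ ⟨x, hx, rfl⟩ ⟨y, hy, hxy⟩
    rw [ZMod.natCast_eq_natCast_iff', Nat.mod_eq_of_lt (h.lt _ _ hx),
      Nat.mod_eq_of_lt (h.lt _ _ hy)] at hxy
    subst hxy
    exact h.dis (e i) (e j) (fun h => hij (e.injective h)) _ hx hy
  · intro i j hij
    obtain ⟨x, y, hx, hy, hxy⟩ := h.adj (e i) (e j) (fun h => hij (e.injective h))
    exact ⟨x, ⟨x, hx, rfl⟩, y, ⟨y, hy, rfl⟩, adj_of_A hxy⟩

lemma CliqueMinor.mono {V : Type} {G : SimpleGraph V} {k l : ℕ} (h : CliqueMinor G l)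
    (hkl : k ≤ l) : CliqueMinor G k := by
  obtain ⟨f, h1, h2, h3⟩ := h
  refine ⟨fun i => f (Fin.castLE hkl i), fun i => h1 _, fun i j hij => h2 _ _ ?_,
    fun i j hij => h3 _ _ ?_⟩
  · exact fun h => hij (Fin.castLE_injective hkl h)
  · exact fun h => hij (Fin.castLE_injective hkl h)

/-- clique minors are inherited by graphs containing `G` -/
lemma CliqueMinor.map {V W : Type} {G : SimpleGraph V} {H : SimpleGraph W} {k : ℕ}
    (h : CliqueMinor G k) (φ : V → W) (hφ : Function.Injective φ)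
    (hadj : ∀ u v, G.Adj u v → H.Adj (φ u) (φ v)) : CliqueMinor H k := by
  obtain ⟨f, h1, h2, h3⟩ := h
  refine ⟨fun i => φ '' f i, ?_, ?_, ?_⟩
  · intro i
    apply connected_of_rtg
    · obtain ⟨⟨x, hx⟩⟩ := (h1 i).nonempty
      exact ⟨φ x, x, hx, rfl⟩
    · rintro _ ⟨x, hx, rfl⟩ _ ⟨y, hy, rfl⟩
      obtain ⟨p⟩ := (h1 i).preconnected ⟨x, hx⟩ ⟨y, hy⟩
      have key : ∀ (a b : f i) (p : (G.induce (f i)).Walk a b),
          ReflTransGen (fun a b => a ∈ φ '' f i ∧ b ∈ φ '' f i ∧ H.Adj a b) (φ a) (φ b) := by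
        intro a b p
        induction p with
        | nil => exact ReflTransGen.refl
        | @cons a c b hac q ih =>
          refine ReflTransGen.head ⟨⟨a, a.2, rfl⟩, ⟨c, c.2, rfl⟩, hadj _ _ ?_⟩ ih
          rw [SimpleGraph.comap_adj] at hac
          exact hac
      exact key _ _ p
  · intro i j hij
    rw [Set.disjoint_left]
    rintro _ ⟨x, hx, rfl⟩ ⟨y, hy, hxy⟩
    have := hφ hxy
    subst this
    exact Set.disjoint_left.1 (h2 i j hij) hx hy
  · intro i j hij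
    obtain ⟨x, hx, y, hy, hxy⟩ := h3 i j hij
    exact ⟨φ x, ⟨x, hx, rfl⟩, φ y, ⟨y, hy, rfl⟩, hadj _ _ hxy⟩

end Pool.Agent.H55.SC
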