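import Mathlib

/-!
# Definitions for sparse circulant graphs
-/

namespace Pool.Agent.H55.SC

/-- `G` has a `K_k` minor: there are `k` pairwise disjoint connected vertex sets, any two of which
are joined by an edge. -/
def CliqueMinor {V : Type} (G : SimpleGraph V) (k : ℕ) : Prop :=
  ∃ f : Fin k → Set V,
    (∀ i, (G.induce (f i)).Connected) ∧
    (∀ i j, i ≠ j → Disjoint (f i) (f j)) ∧
    (∀ i j, i ≠ j → ∃ u ∈ f i, ∃ v ∈ f j, G.Adj u v)

/-- The circulant graph `C_n(D)`: the vertices are the integers modulo `n`, and two different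
vertices are adjacent if they differ by an element of `D` modulo `n`. -/
def circ (n : ℕ) (D : Finset ℕ) : SimpleGraph (ZMod n) :=
  SimpleGraph.circulantGraph {x : ZMod n | ∃ δ ∈ D, x = (δ : ZMod n)}

end Pool.Agent.H55.SC
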