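import Pool.Agent.H55.SC.Base

/-!
# Colourings of circulant graphs
-/

namespace Pool.Agent.H55.SC

/-- a colouring of the numbers below `n` gives a colouring of the circulant graph -/
lemma colorable_of_nat {n : ℕ} [NeZero n] {D : Finset ℕ} (hD : ∀ δ ∈ D, δ < n) {k : ℕ}
    (c : ℕ → ℕ) (hc : ∀ x, x < n → c x < k) (h : ∀ x y, A n D x y → c x ≠ c y) :
    (circ n D).Colorable k := by
  refine ⟨SimpleGraph.Coloring.mk (fun v => ⟨c v.val, hc _ (ZMod.val_lt v)⟩) ?_⟩
  intro u v huv heq
  exact h _ _ (A_of_adj hD huv) (congrArg Fin.val heq)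

/-- powers of long cycles are `(d + 2)`-colourable -/
theorem colorable_two {n d : ℕ} {D : Finset ℕ} (hd : 1 ≤ d) (hD : ∀ δ ∈ D, 1 ≤ δ ∧ δ ≤ d)
    (hn : d * (d + 1) ≤ n) : (circ n D).Colorable (d + 2) := by
  have hdn : d < n := by nlinarith
  have : NeZero n := ⟨by omega⟩
  obtain ⟨q, ρ, hq, hρ⟩ : ∃ q ρ, n = (d + 1) * q + ρ ∧ ρ ≤ d :=
    ⟨n / (d + 1), n % (d + 1), (Nat.div_add_mod n (d + 1)).symm,
      by have := Nat.mod_lt n (show 0 < d + 1 by omega); omega⟩
  have hqd : d ≤ q := by
    by_contra h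
    have h1 : q + 1 ≤ d := by omega
    have h2 : (d + 1) * (q + 1) ≤ (d + 1) * d := Nat.mul_le_mul_left _ h1
    have h3 : (d + 1) * (q + 1) = (d + 1) * q + (d + 1) := by ring
    have h4 : (d + 1) * d = d * (d + 1) := by ring
    omega
  obtain ⟨t, ht⟩ : ∃ t, q = t + ρ := ⟨q - ρ, by omega⟩
  set N := (d + 1) * t with hN
  have hn' : n = N + (d + 2) * ρ := by
    rw [hq, ht, hN]; ring
  let c : ℕ → ℕ := fun x => if x < N then x % (d + 1) else (x - N) % (d + 2)
  have c1 : ∀ x, x < N → c x = x % (d + 1) := fun x hx => by simp only [c, hx, if_true]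
  have c2 : ∀ x, ¬ x < N → c x = (x - N) % (d + 2) := fun x hx => by simp only [c, hx, if_false]
  -- congruent numbers at distance at most `d` are equal
  have hmod : ∀ m x y, d < m → x < y → y ≤ x + d → x % m ≠ y % m := by
    intro m x y hm hxy hyx h
    have h1 : m ∣ y - x := (Nat.modEq_iff_dvd' hxy.le).1 h
    have := Nat.le_of_dvd (by omega) h1
    omega
  have key : ∀ x y, x < y → y < n → (y ≤ x + d ∨ x + n ≤ y + d) → c x ≠ c y := by
    intro x y hxy hyn h
    rcases h with h | h
    · by_cases hx : x < N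
      · by_cases hy : y < N
        · rw [c1 x hx, c1 y hy]
          exact hmod _ _ _ (by omega) hxy h
        · rw [c1 x hx, c2 y hy]
          intro heq
          have e1 : (y - N) % (d + 2) = y - N := Nat.mod_eq_of_lt (by omega)
          rw [e1] at heq
          -- `x % (d + 1) = y - N`
          have e2 : N - x ≤ d := by omega
          have ht0 : 0 < t := by
            rcases Nat.eq_zero_or_pos t with h0 | h0
            · rw [h0, mul_zero] at hN; omega
            · exact h0
          obtain ⟨t', rfl⟩ : ∃ t', t = t' + 1 := ⟨t - 1, by omega⟩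
          have e3 : N = (d + 1) * t' + (d + 1) := by rw [hN]; ring
          have e4 : x = (d + 1) * t' + (x - (d + 1) * t') := by omega
          have e5 : x % (d + 1) = x - (d + 1) * t' := by
            rw [e4, Nat.mul_add_mod, Nat.mod_eq_of_lt (by omega)]
            omega
          omega
      · have hy : ¬ y < N := by omega
        rw [c2 x hx, c2 y hy]
        exact hmod _ _ _ (by omega) (by omega) (by omega)
    · -- across the end
      have hx : c x = x := by
        by_cases hx : x < N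
        · rw [c1 x hx, Nat.mod_eq_of_lt (by omega)]
        · have ht0 : t = 0 := by
            by_contra h0
            have : (d + 1) * 1 ≤ (d + 1) * t := Nat.mul_le_mul_left _ (by omega)
            omega
          rw [ht0, mul_zero] at hN
          rw [c2 x hx, hN, Nat.sub_zero, Nat.mod_eq_of_lt (by omega)]
      rcases Nat.eq_zero_or_pos ρ with h0 | h0
      · rw [h0, mul_zero, add_zero] at hn'
        have hy : y < N := by omega
        rw [hx, c1 y hy]
        intro heq
        have ht0 : 0 < t := by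
          rcases Nat.eq_zero_or_pos t with h0 | h0
          · rw [h0, mul_zero] at hN; omega
          · exact h0
        obtain ⟨t', rfl⟩ : ∃ t', t = t' + 1 := ⟨t - 1, by omega⟩
        have e3 : N = (d + 1) * t' + (d + 1) := by rw [hN]; ring
        have e5 : y % (d + 1) = y - (d + 1) * t' := by
          have e4 : y = (d + 1) * t' + (y - (d + 1) * t') := by omega
          rw [e4, Nat.mul_add_mod, Nat.mod_eq_of_lt (by omega)]
          omega
        omega
      · obtain ⟨ρ', rfl⟩ : ∃ ρ', ρ = ρ' + 1 := ⟨ρ - 1, by omega⟩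
        have e3 : n = N + (d + 2) * ρ' + (d + 2) := by rw [hn']; ring
        have hy : ¬ y < N := by omega
        rw [hx, c2 y hy]
        intro heq
        have e5 : (y - N) % (d + 2) = y - N - (d + 2) * ρ' := by
          have e4 : y - N = (d + 2) * ρ' + (y - N - (d + 2) * ρ') := by omega
          rw [e4, Nat.mul_add_mod, Nat.mod_eq_of_lt (by omega)]
          omega
        omega
  apply colorable_of_nat (fun δ hδ => by have := hD δ hδ; omega) c
  · intro x _
    by_cases hx : x < N
    · rw [c1 x hx]; have := Nat.mod_lt x (show 0 < d + 1 by omega); omega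
    · rw [c2 x hx]; exact Nat.mod_lt _ (by omega)
  · rintro x y ⟨hx, hy, hne, δ, hδ, h⟩
    have hδ' := hD δ hδ
    rcases lt_or_gt_of_ne hne with hlt | hlt
    · exact key x y hlt hy (by omega)
    · exact (key y x hlt hx (by omega)).symm

/-- rings of the two-generator type are `6`-colourable -/
theorem colorable_six {n d a : ℕ} {D : Finset ℕ} (hd : 3 ≤ d) (ha : 1 ≤ a) (had : a < d)
    (hcop : Nat.Coprime a d) (hD : ∀ δ ∈ D, δ = a ∨ δ = d - a ∨ δ = d)
    (hn : 12 * d * d ≤ n) : (circ n D).Colorable 6 := by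
  have hn0 : d < n := by nlinarith
  have : NeZero n := ⟨by omega⟩
  set N := a + d with hN
  have hN4 : 4 ≤ N := by omega
  set j := N / 6 + 1 with hj
  have hj1 : N + 1 ≤ 6 * j := by omega
  have hj2 : 12 * j + 1 ≤ 5 * N := by omega
  have hNcop : Nat.Coprime a N := by
    rw [hN, Nat.coprime_self_add_right]; exact hcop
  -- the multiplier
  obtain ⟨k, hk⟩ : ∃ k : ℤ, (N : ℤ) ∣ a * k - j := by
    have h1 : (a : ℤ) * Nat.gcdA a N + N * Nat.gcdB a N = 1 := by
      have := Nat.gcd_eq_gcd_ab a N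
      rw [hNcop] at this
      exact_mod_cast this.symm
    refine ⟨Nat.gcdA a N * j, - Nat.gcdB a N * j, ?_⟩
    linear_combination (j : ℤ) * h1
  obtain ⟨Q, hQ⟩ := hk
  -- residues of the multiples
  have hres : ∀ δ ∈ D, ∃ Qδ jδ : ℤ, k * δ = N * Qδ + jδ ∧ (N : ℤ) + 1 ≤ 6 * jδ ∧
      6 * jδ ≤ 5 * N - 1 := by
    intro δ hδ
    rcases hD δ hδ with rfl | rfl | rfl
    · refine ⟨Q, j, by linear_combination hQ, by exact_mod_cast hj1, by omega⟩
    · refine ⟨k - 2 * Q - 1, N - 2 * j, ?_, by omega, by omega⟩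
      rw [Nat.cast_sub had.le]
      have hN' : (N : ℤ) = a + d := by rw [hN]; push_cast; ring
      rw [hN'] at hQ ⊢
      linear_combination (-2 : ℤ) * hQ
    · refine ⟨k - Q - 1, N - j, ?_, by omega, by omega⟩
      have hN' : (N : ℤ) = a + δ := by rw [hN]; push_cast; ring
      rw [hN'] at hQ ⊢
      linear_combination (-1 : ℤ) * hQ
  have hNpos : (0 : ℤ) < N := by exact_mod_cast (by omega : 0 < N)
  set c : ℤ := (n : ℤ) * k / N with hc
  set ρ : ℤ := (n : ℤ) * k % N with hρ
  have hcρ : (N : ℤ) * c + ρ = n * k := Int.mul_ediv_add_emod _ _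
  have hρ0 : 0 ≤ ρ := Int.emod_nonneg _ hNpos.ne'
  have hρN : ρ < N := Int.emod_lt_of_pos _ hNpos
  have hnpos : (0 : ℤ) < n := by exact_mod_cast (by omega : 0 < n)
  -- the steps on the circle
  have hstep : ∀ δ ∈ D, ∃ v q : ℤ, c * δ = n * q + v ∧ (n : ℤ) ≤ 6 * v ∧ 6 * v ≤ 5 * n := by
    intro δ hδ
    obtain ⟨Qδ, jδ, h1, h2, h3⟩ := hres δ hδ
    refine ⟨c * δ - n * Qδ, Qδ, by ring, ?_, ?_⟩
    · have hδd : (δ : ℤ) ≤ d := by
        rcases hD δ hδ with h | h | h <;> omega
      have e1 : (N : ℤ) * (c * δ - n * Qδ) = n * jδ - ρ * δ := by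
        linear_combination (δ : ℤ) * hcρ + (n : ℤ) * h1
      have e2 : ρ * δ ≤ N * d := by
        have : (0 : ℤ) ≤ δ := by positivity
        nlinarith
      have e3 : (6 : ℤ) * (N * d) ≤ n := by
        have h5 : (N : ℤ) ≤ 2 * d := by omega
        have h6 : (12 : ℤ) * d * d ≤ n := by exact_mod_cast hn
        have h7 : (0 : ℤ) ≤ d := by positivity
        nlinarith
      have e4 : (n : ℤ) * (N + 1) ≤ n * (6 * jδ) := by
        apply mul_le_mul_of_nonneg_left h2 hnpos.le
      have e5 : (N : ℤ) * n ≤ N * (6 * (c * δ - n * Qδ)) := by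
        have : (N : ℤ) * (6 * (c * δ - n * Qδ)) = 6 * (n * jδ - ρ * δ) := by
          rw [← e1]; ring
        rw [this]
        nlinarith
      exact le_of_mul_le_mul_left e5 hNpos
    · have e1 : (N : ℤ) * (c * δ - n * Qδ) = n * jδ - ρ * δ := by
        linear_combination (δ : ℤ) * hcρ + (n : ℤ) * h1
      have e2 : 0 ≤ ρ * δ := by positivity
      have e4 : (n : ℤ) * (6 * jδ) ≤ n * (5 * N - 1) := by
        apply mul_le_mul_of_nonneg_left h3 hnpos.le
      have e5 : (N : ℤ) * (6 * (c * δ - n * Qδ)) ≤ N * (5 * n) := by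
        have : (N : ℤ) * (6 * (c * δ - n * Qδ)) = 6 * (n * jδ - ρ * δ) := by
          rw [← e1]; ring
        rw [this]
        nlinarith
      exact le_of_mul_le_mul_left e5 hNpos
  -- the colouring
  have hcol : ∀ x y : ℕ, (∃ v q : ℤ, c * y = c * x + n * q + v ∧ (n : ℤ) ≤ 6 * v ∧
      6 * v ≤ 5 * n) → 6 * ((c * x) % n) / (n : ℤ) ≠ 6 * ((c * y) % n) / n := by
    rintro x y ⟨v, q, h1, h2, h3⟩ heq
    have x1 := Int.emod_nonneg (c * x) hnpos.ne'
    have x2 := Int.emod_lt_of_pos (c * x) hnpos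
    have y1 := Int.emod_nonneg (c * y) hnpos.ne'
    have y2 := Int.emod_lt_of_pos (c * y) hnpos
    have a1 := Int.mul_ediv_add_emod (6 * ((c * x) % n)) n
    have a2 := Int.emod_nonneg (6 * ((c * x) % n)) hnpos.ne'
    have a3 := Int.emod_lt_of_pos (6 * ((c * x) % n)) hnpos
    have b1 := Int.mul_ediv_add_emod (6 * ((c * y) % n)) n
    have b2 := Int.emod_nonneg (6 * ((c * y) % n)) hnpos.ne'
    have b3 := Int.emod_lt_of_pos (6 * ((c * y) % n)) hnpos
    rw [heq] at a1
    have hdvd : (n : ℤ) ∣ ((c * x) % n) + v - ((c * y) % n) := by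
      have e1 := Int.emod_add_mul_ediv (c * x) n
      have e2 := Int.emod_add_mul_ediv (c * y) n
      refine ⟨(c * y) / n - (c * x) / n - q, ?_⟩
      linear_combination e1 - e2 - h1
    obtain ⟨r, hr⟩ := hdvd
    have hr1 : r = 0 ∨ 1 ≤ r ∨ r ≤ -1 := by omega
    rcases hr1 with hr1 | hr1 | hr1
    · rw [hr1, mul_zero] at hr
      linarith
    · have : (n : ℤ) * 1 ≤ n * r := mul_le_mul_of_nonneg_left hr1 hnpos.le
      linarith
    · have : (n : ℤ) * r ≤ n * (-1) := mul_le_mul_of_nonneg_left hr1 hnpos.le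
      linarith
  have hlt : ∀ x : ℕ, 0 ≤ 6 * ((c * x) % n) / (n : ℤ) ∧ 6 * ((c * x) % n) / (n : ℤ) < 6 := by
    intro x
    have x1 := Int.emod_nonneg (c * x) hnpos.ne'
    have x2 := Int.emod_lt_of_pos (c * x) hnpos
    constructor
    · exact Int.ediv_nonneg (by linarith) hnpos.le
    · exact Int.ediv_lt_of_lt_mul hnpos (by linarith)
  apply colorable_of_nat (D := D) (n := n) (k := 6) ?_
    (fun x => (6 * ((c * x) % n) / (n : ℤ)).toNat)
  · intro x _
    have := hlt x
    omega
  · rintro x y ⟨hx, hy, hne, δ, hδ, h⟩ heq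
    have hx' := hlt x
    have hy' := hlt y
    have heq' : 6 * ((c * x) % n) / (n : ℤ) = 6 * ((c * y) % n) / n := by omega
    obtain ⟨v, q, h1, h2, h3⟩ := hstep δ hδ
    rcases h with h | h | h | h
    · refine hcol x y ⟨v, q, ?_, h2, h3⟩ heq'
      rw [← h]; push_cast; linear_combination h1
    · refine hcol y x ⟨v, q, ?_, h2, h3⟩ heq'.symm
      rw [← h]; push_cast; linear_combination h1
    · refine hcol x y ⟨v, q - c, ?_, h2, h3⟩ heq'
      have : (y : ℤ) = x + δ - n := by omega
      rw [this]; linear_combination h1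
    · refine hcol y x ⟨v, q - c, ?_, h2, h3⟩ heq'.symm
      have : (x : ℤ) = y + δ - n := by omega
      rw [this]; linear_combination h1
  · intro δ hδ
    rcases hD δ hδ with h | h | h <;> omega

end Pool.Agent.H55.SC
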