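import Mathlib
import Pool.Graph.R_pool_sql_team_51e01f96.H.helper18_.Kneser

/-!
# Cayley graphs of degree at least three on finite abelian groups are 3-connected
-/

namespace Pool.Agent.H55.SC

open Finset Pointwise Pool.Agent.H.helper18.Kneser

theorem expand {G : Type} [AddCommGroup G] [Fintype G] [DecidableEq G] (A B : Finset G)
    (hA : A.Nonempty) (h0 : (0 : G) ∈ B) (hneg : ∀ x ∈ B, -x ∈ B) (h4 : 4 ≤ B.card)
    (hgen : ∀ H : AddSubgroup G, (∀ x ∈ B, x ∈ H) → H = ⊤) (hne : A + B ≠ univ) :
    A.card + 3 ≤ (A + B).card := by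
  set K : Finset G := st (A + B) with hK
  have K0 : (0 : G) ∈ K := st_zero _
  have Kadd : ∀ {x y : G}, x ∈ K → y ∈ K → x + y ∈ K := fun hx hy => st_add hx hy
  have Kneg : ∀ {x : G}, x ∈ K → -x ∈ K := fun hx => st_neg hx
  have hKK : K + K = K := by
    apply Subset.antisymm
    · intro x hx
      obtain ⟨a, ha, b, hb, rfl⟩ := mem_add.1 hx
      exact Kadd ha hb
    · exact subset_add_left _ K0
  have hsum : (A + K) + (B + K) = A + B := by
    rw [add_add_add_comm, hKK]
    exact add_st _
  have hkn := kneser (A + K) (B + K) (hA.add ⟨0, K0⟩) (⟨0, h0⟩ |> fun h => Finset.Nonempty.add h ⟨0, K0⟩)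
  rw [hsum, ← hK] at hkn
  have hA1 : A ⊆ A + K := subset_add_left _ K0
  have hB1 : B ⊆ B + K := subset_add_left _ K0
  have hA1c := card_le_card hA1
  have hB1c := card_le_card hB1
  have hKB : K ⊆ B + K := subset_add_right _ h0
  have hdvd : K.card ∣ (B + K).card := by
    apply st_dvd
    intro g hg
    rw [mem_st]
    intro x hx
    obtain ⟨b, hb, k, hk, rfl⟩ := mem_add.1 hx
    rw [add_left_comm]
    exact add_mem_add hb (Kadd hg hk)
  have hKpos : 0 < K.card := card_pos.2 ⟨0, K0⟩
  -- `A + B` meets every element
  have huniv : ∀ C : Finset G, C = univ → (C ⊆ K ∨ C ⊆ B) → False := by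
    intro C hC h
    apply hne
    obtain ⟨a, ha⟩ := hA
    rcases h with h | h
    · rw [hC] at h
      apply eq_univ_of_forall
      intro g
      have h1 : g - (a + 0) ∈ K := h (mem_univ _)
      have h2 := mem_st.1 h1 (a + 0) (add_mem_add ha h0)
      simpa using h2
    · rw [hC] at h
      apply eq_univ_of_forall
      intro g
      have h1 : a + (g - a) ∈ A + B := add_mem_add ha (h (mem_univ _))
      simpa using h1
  have hne' : (B + K).card ≠ K.card := by
    intro he
    have h1 : K = B + K := eq_of_subset_of_card_le hKB he.le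
    let H : AddSubgroup G :=
      { carrier := (K : Set G)
        add_mem' := fun hx hy => Kadd hx hy
        zero_mem' := K0
        neg_mem' := fun hx => Kneg hx }
    have hH : H = ⊤ := hgen H fun x hx => by
      show x ∈ (K : Set G)
      rw [h1]
      exact hB1 hx
    apply huniv univ rfl (Or.inl _)
    intro x _
    have : x ∈ H := by rw [hH]; trivial
    exact this
  have h2K : 2 * K.card ≤ (B + K).card := by
    obtain ⟨c, hc⟩ := hdvd
    rcases c with _ | _ | c
    · rw [mul_zero] at hc; omega
    · rw [zero_add, mul_one] at hc; exact absurd hc hne'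
    · rw [hc]; nlinarith
  by_contra hlt
  have hK2 : K.card = 2 := by omega
  have hB4 : (B + K).card = 4 := by omega
  have hBeq : B = B + K := eq_of_subset_of_card_le hB1 (by omega)
  have hKsubB : K ⊆ B := by rw [hBeq]; exact hKB
  have hBc : B.card = 4 := by rw [hBeq]; exact hB4
  have hX : (B \ K).card = 2 := by
    rw [card_sdiff_of_subset hKsubB]; omega
  have hadd : ∀ b ∈ B, ∀ b' ∈ B, b + b' ∈ B := by
    intro b hb b' hb'
    by_cases hbK : b ∈ K
    · rw [hBeq, add_comm b b']
      exact add_mem_add hb' hbK
    by_cases hbK' : b' ∈ K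
    · rw [hBeq]
      exact add_mem_add hb hbK'
    have hsub : K.image (fun k => -b + k) ⊆ B \ K := by
      intro x hx
      obtain ⟨k, hk, rfl⟩ := mem_image.1 hx
      rw [mem_sdiff]
      constructor
      · rw [hBeq]; exact add_mem_add (hneg b hb) hk
      · intro hx'
        apply hbK
        have h1 : -b ∈ K := by
          have := Kadd hx' (Kneg hk)
          simpa using this
        simpa using Kneg h1
    have heq : K.image (fun k => -b + k) = B \ K := by
      apply eq_of_subset_of_card_le hsub
      rw [card_image_of_injective _ (add_right_injective (-b)), hX, hK2]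
    have h1 : b' ∈ K.image (fun k => -b + k) := by
      rw [heq, mem_sdiff]; exact ⟨hb', hbK'⟩
    obtain ⟨k, hk, rfl⟩ := mem_image.1 h1
    have : b + (-b + k) = k := by abel
    rw [this]
    exact hKsubB hk
  let H : AddSubgroup G :=
    { carrier := (B : Set G)
      add_mem' := fun hx hy => hadd _ hx _ hy
      zero_mem' := h0
      neg_mem' := fun hx => hneg _ hx }
  have hH : H = ⊤ := hgen H fun x hx => hx
  apply huniv univ rfl (Or.inr _)
  intro x _
  have : x ∈ H := by rw [hH]; trivial
  exact this

end Pool.Agent.H55.SC
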