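import Pool.Agent.H55.SC.Base

/-!
# Powers of cycles, and the upper bound
-/

namespace Pool.Agent.H55.SC

open Relation

/-- `K_{d+2}` in the `d`-th power of a cycle -/
theorem full_minor {n d : ℕ} {D : Finset ℕ} (hd : 1 ≤ d) (hD : ∀ δ, 1 ≤ δ → δ ≤ d → δ ∈ D)
    (hn : d + 2 ≤ n) : CliqueMinor (circ n D) (d + 2) := by
  let P : Option (Fin (d + 1)) → ℕ → Prop := fun o x =>
    match o with
    | none => d + 1 ≤ x ∧ x < n
    | some i => x = i.val
  have h1 : 1 ∈ D := hD 1 le_rfl hd
  have hnm : NM n D P := by
    refine ⟨?_, ?_, ?_, ?_, ?_⟩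
    · rintro (_ | i) x hx
      · exact hx.2
      · have := i.2; have : x = i.val := hx; omega
    · rintro (_ | i)
      · exact ⟨d + 1, le_rfl, by omega⟩
      · exact ⟨i.val, rfl⟩
    · rintro (_ | i) x y hx hy
      · have key : ∀ k x, d + 1 ≤ x → x + k < n → RP n D (P none) x (x + k) := by
          intro k
          induction k with
          | zero => intro x _ _; exact ReflTransGen.refl
          | succ k ih =>
            intro x hx1 hx2
            refine (ih x hx1 (by omega)).trans (RP.single ⟨by omega, by omega⟩
              ⟨by omega, hx2⟩ ⟨by omega, by omega, by omega, 1, h1, Or.inl rfl⟩)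
        rcases le_total x y with h | h
        · have := key (y - x) x hx.1 (by have := hy.2; omega)
          rwa [Nat.add_sub_cancel' h] at this
        · have := key (x - y) y hy.1 (by have := hx.2; omega)
          rw [Nat.add_sub_cancel' h] at this
          exact this.symm
      · have h1 : x = i.val := hx
        have h2 : y = i.val := hy
        rw [h1, h2]
        exact ReflTransGen.refl
    · rintro (_ | i) (_ | j) hne x hx hy
      · exact hne rfl
      · have := j.2; have h2 : x = j.val := hy; have := hx.1; omega
      · have := i.2; have h2 : x = i.val := hx; have := hy.1; omega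
      · have h1 : x = i.val := hx
        have h2 : x = j.val := hy
        exact hne (by rw [Fin.ext (h1.symm.trans h2)])
    · have key : ∀ i : Fin (d + 1), ∃ x y, P (some i) x ∧ P none y ∧ A n D x y := by
        intro i
        have := i.2
        by_cases hi : i.val = 0
        · refine ⟨i.val, n - 1, rfl, ⟨by omega, by omega⟩, by omega, by omega, by omega, 1, h1,
            Or.inr (Or.inr (Or.inr (by omega)))⟩
        · refine ⟨i.val, d + 1, rfl, ⟨by omega, by omega⟩, by omega, by omega, by omega,
            d + 1 - i.val, hD _ (by omega) (by omega), Or.inl (by omega)⟩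
      rintro (_ | i) (_ | j) hne
      · exact absurd rfl hne
      · obtain ⟨x, y, h1, h2, h3⟩ := key j
        exact ⟨y, x, h2, h1, h3.symm⟩
      · exact key i
      · have hi := i.2
        have hj := j.2
        have hij : i.val ≠ j.val := fun h => hne (by rw [Fin.ext h])
        refine ⟨i.val, j.val, rfl, rfl, by omega, by omega, hij, ?_⟩
        rcases lt_or_gt_of_ne hij with h | h
        · exact ⟨j.val - i.val, hD _ (by omega) (by omega), Or.inl (by omega)⟩
        · exact ⟨i.val - j.val, hD _ (by omega) (by omega), Or.inr (Or.inl (by omega))⟩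
  apply hnm.minor
  rw [Fintype.card_option, Fintype.card_fin]

/-- a circulant graph with all differences at most `d` has no `K_{2d+2}` minor -/
theorem upper {n d k : ℕ} [NeZero n] {D : Finset ℕ} (hD : ∀ δ ∈ D, 1 ≤ δ ∧ δ ≤ d) (hdn : d < n)
    (h : CliqueMinor (circ n D) k) : k ≤ 2 * d + 1 := by
  classical
  obtain ⟨f, hcon, hdis, hadj⟩ := h
  by_contra hk
  -- branch sets meeting the first `d` vertices
  let bad : Finset (Fin k) := Finset.univ.filter fun i => ∃ v ∈ f i, v.val < d
  have hbad : bad.card ≤ d := by
    have h1 : ∀ i ∈ bad, ∃ x, x < d ∧ (x : ZMod n) ∈ f i := by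
      intro i hi
      obtain ⟨v, hv, hvd⟩ := (Finset.mem_filter.1 hi).2
      exact ⟨v.val, hvd, by rwa [ZMod.natCast_zmod_val]⟩
    choose! F hF1 hF2 using h1
    have h2 : bad.card ≤ (Finset.range d).card := by
      apply Finset.card_le_card_of_injOn F
      · intro i hi
        exact Finset.mem_coe.2 (Finset.mem_range.2 (hF1 i hi))
      · intro i hi j hj hij
        by_contra hne
        exact Set.disjoint_left.1 (hdis i j hne) (hF2 i hi) (by rw [hij]; exact hF2 j hj)
    rwa [Finset.card_range] at h2
  let good : Finset (Fin k) := Finset.univ \ bad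
  have hgood : d + 2 ≤ good.card := by
    have := Finset.card_sdiff_add_card_eq_card (Finset.subset_univ bad)
    rw [Finset.card_univ, Fintype.card_fin] at this
    show d + 2 ≤ (Finset.univ \ bad).card
    omega
  have hgd : ∀ i ∈ good, ∀ v ∈ f i, d ≤ v.val := by
    intro i hi v hv
    by_contra hlt
    have : i ∈ bad := Finset.mem_filter.2 ⟨Finset.mem_univ _, v, hv, by omega⟩
    exact (Finset.mem_sdiff.1 hi).2 this
  -- adjacency away from the first `d` vertices
  have hA : ∀ u v : ZMod n, (circ n D).Adj u v → d ≤ u.val → d ≤ v.val →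
      u.val < v.val → v.val ≤ u.val + d := by
    intro u v huv hu hv hlt
    obtain ⟨h1, h2, h3, δ, hδ, h4⟩ := A_of_adj (fun δ hδ => by have := hD δ hδ; omega) huv
    have := hD δ hδ
    omega
  -- the last vertices of the good branch sets
  have hlast : ∀ i, ∃ v ∈ f i, ∀ w ∈ f i, w.val ≤ v.val := by
    intro i
    obtain ⟨⟨x, hx⟩⟩ := (hcon i).nonempty
    obtain ⟨v, hv1, hv2⟩ := (Finset.univ.filter fun v : ZMod n => v ∈ f i).exists_max_image
      (fun v => v.val) ⟨x, by simpa using hx⟩
    refine ⟨v, (Finset.mem_filter.1 hv1).2, fun w hw => hv2 w (by simpa using hw)⟩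
  choose M hM1 hM2 using hlast
  have hgne : good.Nonempty := Finset.card_pos.1 (by omega)
  obtain ⟨i0, hi0, hmin⟩ := good.exists_min_image (fun i => (M i).val) hgne
  set t := (M i0).val with ht
  -- every other good branch set meets the interval `(t, t + d]`
  have hmeet : ∀ j ∈ good.erase i0, ∃ x, t < x ∧ x ≤ t + d ∧ (x : ZMod n) ∈ f j := by
    intro j hj
    have hjg := Finset.mem_of_mem_erase hj
    have hji : j ≠ i0 := Finset.ne_of_mem_erase hj
    have htj : t < (M j).val := by
      rcases Nat.eq_or_lt_of_le (hmin j hjg) with h | h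
      · exfalso
        have h1 : M i0 = M j := ZMod.val_injective n h
        exact Set.disjoint_left.1 (hdis j i0 hji) (hM1 j) (by rw [← h1]; exact hM1 i0)
      · exact h
    obtain ⟨u, hu, v, hv, huv⟩ := hadj i0 j hji.symm
    have hut := hM2 i0 u hu
    have hud := hgd i0 hi0 u hu
    have hvd := hgd j hjg v hv
    by_cases hvt : t < v.val
    · refine ⟨v.val, hvt, ?_, by rwa [ZMod.natCast_zmod_val]⟩
      have := hA u v huv hud hvd (by omega)
      omega
    · -- walk from `v` to the last vertex
      obtain ⟨p⟩ := (hcon j).preconnected ⟨v, hv⟩ ⟨M j, hM1 j⟩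
      have key : ∀ (a b : f j) (p : ((circ n D).induce (f j)).Walk a b), a.1.val ≤ t →
          t < b.1.val → ∃ x, t < x ∧ x ≤ t + d ∧ (x : ZMod n) ∈ f j := by
        intro a b p
        induction p with
        | nil => intro h1 h2; omega
        | @cons a c b hac q ih =>
          intro h1 h2
          by_cases hc : t < c.1.val
          · refine ⟨c.1.val, hc, ?_, by rw [ZMod.natCast_zmod_val]; exact c.2⟩
            rw [SimpleGraph.comap_adj] at hac
            have := hA _ _ hac (hgd j hjg _ a.2) (hgd j hjg _ c.2)
              (by simp only [Function.Embedding.subtype_apply]; omega)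
            simp only [Function.Embedding.subtype_apply] at this
            omega
          · exact ih (by omega) h2
      exact key _ _ p (by simp only; omega) htj
  choose! F hF1 hF2 hF3 using hmeet
  have hcard : (good.erase i0).card ≤ (Finset.Ioc t (t + d)).card := by
    apply Finset.card_le_card_of_injOn F
    · intro j hj
      exact Finset.mem_coe.2 (Finset.mem_Ioc.2 ⟨hF1 j hj, hF2 j hj⟩)
    · intro i hi j hj hij
      by_contra hne
      exact Set.disjoint_left.1 (hdis i j hne) (hF3 i hi) (by rw [hij]; exact hF3 j hj)
  rw [Nat.card_Ioc, Finset.card_erase_of_mem hi0] at hcard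
  omega

end Pool.Agent.H55.SC
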