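import Pool.Agent.H55.SC.Slide

/-!
# Rings whose tracks form a cycle: six branch sets
-/

namespace Pool.Agent.H55.SC

open Relation Finset

variable {d : ℕ} {D : Finset ℕ}

/-- the tracks of the three carriers -/
def gB (s : ZMod d) : ℕ → Fin (3 + 1) → ZMod d → Prop := fun _ i r =>
  (i = 1 ∧ r = 0) ∨ (i = 2 ∧ r = s) ∨ (i = 3 ∧ r ≠ 0 ∧ r ≠ s)

theorem typeB {n a : ℕ} (hd : 3 ≤ d) (hdD : d ∈ D) (hD : ∀ δ ∈ D, 1 ≤ δ ∧ δ ≤ d)
    (haD : a ∈ D) (hcop : Nat.Coprime a d) (hn : 18 * d ≤ n) :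
    ∃ P : {i : Fin (3 + 1) // i ≠ 0} × Bool → ℕ → Prop, NM n D P := by
  have : NeZero d := ⟨by omega⟩
  set s : ZMod d := (a : ZMod d) with hs
  have hunit : IsUnit s := (ZMod.isUnit_iff_coprime a d).2 hcop
  obtain ⟨u, hu⟩ := hunit
  -- multiples of `s`
  have hmul : ∀ r : ZMod d, ∃ k : ℕ, k < d ∧ (k : ZMod d) * s = r := by
    intro r
    refine ⟨(r * (↑u⁻¹ : ZMod d)).val, ZMod.val_lt _, ?_⟩
    rw [ZMod.natCast_zmod_val, ← hu, mul_assoc, Units.inv_mul, mul_one]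
  have hinj : ∀ k l : ℕ, k < d → l < d → (k : ZMod d) * s = (l : ZMod d) * s → k = l := by
    intro k l hk hl h
    have h1 : (k : ZMod d) = (l : ZMod d) := by
      rw [← hu] at h
      exact (Units.mul_left_inj u).1 h
    rw [ZMod.natCast_eq_natCast_iff', Nat.mod_eq_of_lt hk, Nat.mod_eq_of_lt hl] at h1
    exact h1
  have hs0 : s ≠ 0 := by
    intro h
    have := hinj 1 0 (by omega) (by omega) (by rw [h]; simp)
    omega
  have h2s0 : (2 : ZMod d) * s ≠ 0 := by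
    intro h
    have := hinj 2 0 (by omega) (by omega) (by push_cast; rw [h]; simp)
    omega
  have h2ss : (2 : ZMod d) * s ≠ s := by
    intro h
    have := hinj 2 1 (by omega) (by omega) (by push_cast; rw [h]; simp)
    omega
  have hns : -s ≠ s := by
    intro h
    apply h2s0
    have : (2 : ZMod d) * s = s - (-s) := by ring
    rw [this, h, sub_self]
  have hns0 : -s ≠ 0 := fun h => hs0 (neg_eq_zero.1 h)
  have hadj : ∀ r : ZMod d, Hadj D r (r + s) := fun r => ⟨a, haD, Or.inl rfl⟩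
  -- connectivity of the third carrier
  have hcon3 : ∀ r : ZMod d, r ≠ 0 → r ≠ s →
      ReflTransGen (fun x y => (x ≠ 0 ∧ x ≠ s) ∧ (y ≠ 0 ∧ y ≠ s) ∧ Hadj D x y) (2 * s) r := by
    intro r hr0 hrs
    obtain ⟨k, hk, rfl⟩ := hmul r
    have hk2 : 2 ≤ k := by
      rcases k with _ | _ | k
      · exact absurd (by simp) hr0
      · exact absurd (by simp) hrs
      · omega
    clear hr0 hrs
    induction k, hk2 using Nat.le_induction with
    | base => push_cast; exact ReflTransGen.refl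
    | succ k hk2 ih =>
      have h1 := ih (by omega)
      have e0 : ∀ l : ℕ, 2 ≤ l → l < d → ((l : ZMod d) * s ≠ 0 ∧ (l : ZMod d) * s ≠ s) := by
        intro l hl hld
        constructor
        · intro h
          have := hinj l 0 hld (by omega) (by rw [h]; simp)
          omega
        · intro h
          have := hinj l 1 hld (by omega) (by rw [h]; simp)
          omega
      refine h1.tail ⟨e0 k hk2 (by omega), e0 (k + 1) (by omega) hk, ?_⟩
      have := hadj ((k : ZMod d) * s)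
      convert this using 1
      push_cast; ring
  have hsymm : ∀ x y : ZMod d,
      ReflTransGen (fun x y => (x ≠ 0 ∧ x ≠ s) ∧ (y ≠ 0 ∧ y ≠ s) ∧ Hadj D x y) x y →
      ReflTransGen (fun x y => (x ≠ 0 ∧ x ≠ s) ∧ (y ≠ 0 ∧ y ≠ s) ∧ Hadj D x y) y x := by
    intro x y h
    induction h with
    | refl => exact ReflTransGen.refl
    | tail _ h2 ih => exact ReflTransGen.head ⟨h2.2.1, h2.1, h2.2.2.symm⟩ ih
  have hDat : Dat n d (2 * (3 + 1) * 1) (2 * d) D := by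
    refine ⟨by omega, hdD, hD, le_rfl, by omega⟩
  have g1 : ∀ b r, gB s b 1 r ↔ r = 0 := by intro b r; simp [gB]
  have g2 : ∀ b r, gB s b 2 r ↔ r = s := by intro b r; simp [gB]
  have g3 : ∀ b r, gB s b 3 r ↔ (r ≠ 0 ∧ r ≠ s) := by intro b r; simp [gB]
  have hFrm : Frm n d (2 * (3 + 1) * 1) D 0 (gB s) := by
    refine ⟨?_, ?_, ?_⟩
    · intro b _ i j hi hj hij r hr hr'
      fin_cases i <;> fin_cases j <;> simp [gB] at hi hj hij hr hr' ⊢ <;> simp_all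
    · intro b _ i hi r r' hr hr'
      have hi' : i = 1 ∨ i = 2 ∨ i = 3 := by fin_cases i <;> simp at hi ⊢
      rcases hi' with rfl | rfl | rfl
      · rw [g1] at hr hr'
        rw [hr, hr']
      · rw [g2] at hr hr'
        rw [hr, hr']
      · rw [g3] at hr hr'
        have h1 := (hsymm _ _ (hcon3 r hr.1 hr.2)).trans (hcon3 r' hr'.1 hr'.2)
        have h2 : (fun x y : ZMod d => (x ≠ 0 ∧ x ≠ s) ∧ (y ≠ 0 ∧ y ≠ s) ∧ Hadj D x y) =
            (fun x y => gB s b 3 x ∧ gB s b 3 y ∧ Hadj D x y) := by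
          funext x y
          rw [g3, g3]
        rw [h2] at h1
        exact h1
    · intro b _ i hi
      have hi' : i = 1 ∨ i = 2 ∨ i = 3 := by fin_cases i <;> simp at hi ⊢
      rcases hi' with rfl | rfl | rfl
      · exact ⟨0, (g1 _ _).2 rfl, (g1 _ _).2 rfl⟩
      · exact ⟨s, (g2 _ _).2 rfl, (g2 _ _).2 rfl⟩
      · exact ⟨2 * s, (g3 _ _).2 ⟨h2s0, h2ss⟩, (g3 _ _).2 ⟨h2s0, h2ss⟩⟩
  have hep : ∀ e, e < 2 * (3 + 1) → ∀ i j : Fin (3 + 1), i ≠ 0 → j ≠ 0 → i ≠ j → ∃ b,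
      1 * e ≤ b ∧ b < 1 * (e + 1) ∧ ∃ r r', gB s b i r ∧ gB s b j r' ∧ Hadj D r r' := by
    intro e _ i j hi hj hij
    refine ⟨e, by omega, by omega, ?_⟩
    have a12 : Hadj D 0 s := by simpa using hadj 0
    have a23 : Hadj D s (2 * s) := by
      have := hadj s
      rwa [← two_mul] at this
    have a13 : Hadj D 0 (-s) := by
      have := (hadj (-s)).symm
      rwa [neg_add_cancel] at this
    have m1 : gB s e 1 0 := (g1 _ _).2 rfl
    have m2 : gB s e 2 s := (g2 _ _).2 rfl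
    have m3 : gB s e 3 (2 * s) := (g3 _ _).2 ⟨h2s0, h2ss⟩
    have m3' : gB s e 3 (-s) := (g3 _ _).2 ⟨hns0, hns⟩
    have hi' : i = 1 ∨ i = 2 ∨ i = 3 := by fin_cases i <;> simp at hi ⊢
    have hj' : j = 1 ∨ j = 2 ∨ j = 3 := by fin_cases j <;> simp at hj ⊢
    rcases hi' with rfl | rfl | rfl <;> rcases hj' with rfl | rfl | rfl
    · exact absurd rfl hij
    · exact ⟨_, _, m1, m2, a12⟩
    · exact ⟨_, _, m1, m3', a13⟩
    · exact ⟨_, _, m2, m1, a12.symm⟩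
    · exact absurd rfl hij
    · exact ⟨_, _, m2, m3, a23⟩
    · exact ⟨_, _, m3', m1, a13.symm⟩
    · exact ⟨_, _, m3, m2, a23.symm⟩
    · exact absurd rfl hij
  set ν : ZMod d := (n : ZMod d) with hν
  have hfin : ∀ i : Fin (3 + 1), i ≠ 0 → i = 1 ∨ i = 2 ∨ i = 3 := by
    intro i hi; fin_cases i <;> simp at hi ⊢
  by_cases c0 : ν = 0
  · refine ring one_pos hDat hFrm 1 hep ?_
    intro i hi _
    rw [Equiv.Perm.one_apply, ← hν, c0]
    rcases hfin i hi with rfl | rfl | rfl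
    · exact ⟨0, (g1 _ _).2 rfl, (g1 _ _).2 (by ring)⟩
    · exact ⟨s, (g2 _ _).2 rfl, (g2 _ _).2 (by ring)⟩
    · exact ⟨2 * s, (g3 _ _).2 ⟨h2s0, h2ss⟩, (g3 _ _).2 (by rw [sub_zero]; exact ⟨h2s0, h2ss⟩)⟩
  by_cases c1 : ν = s
  · let τ : Equiv.Perm (Fin (3 + 1)) := ⟨![0, 3, 1, 2], ![0, 2, 3, 1], by decide, by decide⟩
    refine ring one_pos hDat hFrm τ hep ?_
    intro i hi _
    rw [← hν, c1]
    rcases hfin i hi with rfl | rfl | rfl
    · refine ⟨0, (g1 _ _).2 rfl, (g3 _ _).2 ?_⟩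
      rw [zero_sub]; exact ⟨hns0, hns⟩
    · exact ⟨s, (g2 _ _).2 rfl, (g1 _ _).2 (by ring)⟩
    · exact ⟨2 * s, (g3 _ _).2 ⟨h2s0, h2ss⟩, (g2 _ _).2 (by ring)⟩
  by_cases c2 : ν = -s
  · let τ : Equiv.Perm (Fin (3 + 1)) := ⟨![0, 2, 3, 1], ![0, 3, 1, 2], by decide, by decide⟩
    refine ring one_pos hDat hFrm τ hep ?_
    intro i hi _
    rw [← hν, c2]
    rcases hfin i hi with rfl | rfl | rfl
    · exact ⟨0, (g1 _ _).2 rfl, (g2 _ _).2 (by ring)⟩
    · refine ⟨s, (g2 _ _).2 rfl, (g3 _ _).2 ?_⟩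
      rw [sub_neg_eq_add, ← two_mul]; exact ⟨h2s0, h2ss⟩
    · exact ⟨-s, (g3 _ _).2 ⟨hns0, hns⟩, (g1 _ _).2 (by ring)⟩
  · let τ : Equiv.Perm (Fin (3 + 1)) := ⟨![2, 3, 0, 1], ![2, 3, 0, 1], by decide, by decide⟩
    refine ring one_pos hDat hFrm τ hep ?_
    intro i hi hτ
    rw [← hν]
    rcases hfin i hi with rfl | rfl | rfl
    · refine ⟨0, (g1 _ _).2 rfl, (g3 _ _).2 ?_⟩
      rw [zero_sub]
      exact ⟨fun h => c0 (neg_eq_zero.1 h), fun h => c2 (by rw [← h, neg_neg])⟩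
    · exact absurd rfl hτ
    · exact ⟨ν, (g3 _ _).2 ⟨c0, c1⟩, (g1 _ _).2 (by ring)⟩

end Pool.Agent.H55.SC
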