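import Pool.Agent.H55.SC.TypeA
import Pool.Agent.H55.SC.TypeB
import Pool.Agent.H55.SC.Colour
import Pool.Agent.H55.SC.Small

/-!
# Hadwiger's conjecture for sparse circulant graphs
-/

namespace Pool.Agent.H55.SC

open Relation

lemma le_of_not_colorable {V : Type} {G : SimpleGraph V} {k c : ℕ} (h : ¬ G.Colorable k)
    (hc : G.Colorable c) : k + 1 ≤ c := by
  by_contra hlt
  exact h (hc.mono (by omega))

/-- the minor of order `2 d - 2` -/
theorem minorA {n d : ℕ} {D : Finset ℕ} (hd : 3 ≤ d) (hdD : d ∈ D)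
    (hD : ∀ δ ∈ D, 1 ≤ δ ∧ δ ≤ d) (hg : ∀ k : ℕ, (∀ δ ∈ D, k ∣ δ) → k = 1)
    (h4 : 4 ≤ (BB d D).card) (hn : 4 * d ^ 6 ≤ n) : CliqueMinor (circ n D) (2 * d - 2) := by
  obtain ⟨m, rfl⟩ : ∃ m, d = m + 1 := ⟨d - 1, by omega⟩
  obtain ⟨P, hP⟩ := typeA hd hdD hD hg h4 hn
  apply hP.minor
  rw [Fintype.card_prod, Fintype.card_bool]
  have : Fintype.card {i : Fin (m + 1) // i ≠ 0} = m := by
    rw [Fintype.card_subtype_compl, Fintype.card_fin, Fintype.card_subtype_eq]; omega
  rw [this]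
  omega

/-- the minor of order `6` -/
theorem minorB {n d a : ℕ} {D : Finset ℕ} (hd : 3 ≤ d) (hdD : d ∈ D)
    (hD : ∀ δ ∈ D, 1 ≤ δ ∧ δ ≤ d) (haD : a ∈ D) (hcop : Nat.Coprime a d) (hn : 18 * d ≤ n) :
    CliqueMinor (circ n D) 6 := by
  obtain ⟨P, hP⟩ := typeB hd hdD hD haD hcop hn
  apply hP.minor
  decide

/-- few differences of tracks: the two-generator type -/
lemma two_gen {d : ℕ} {D : Finset ℕ} (hd : 3 ≤ d) (hdD : d ∈ D)
    (hD : ∀ δ ∈ D, 1 ≤ δ ∧ δ ≤ d) (hg : ∀ k : ℕ, (∀ δ ∈ D, k ∣ δ) → k = 1)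
    (h4 : ¬ 4 ≤ (BB d D).card) : ∃ a ∈ D, a < d ∧ Nat.Coprime a d ∧
      ∀ δ ∈ D, δ = a ∨ δ = d - a ∨ δ = d := by
  obtain ⟨a, haD, had, h2a⟩ : ∃ a ∈ D, a < d ∧ 2 * a ≠ d := by
    by_contra hno
    have h1 : ∀ δ ∈ D, δ = d ∨ 2 * δ = d := by
      intro δ hδ
      by_contra h
      have := (hD δ hδ).2
      exact hno ⟨δ, hδ, by omega, by omega⟩
    by_cases hev : ∃ c, 2 * c = d
    · obtain ⟨c, hc⟩ := hev
      have := hg c (fun δ hδ => by
        rcases h1 δ hδ with h | h
        · rw [h, ← hc]; exact Dvd.intro_left 2 rfl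
        · have : δ = c := by omega
          rw [this])
      omega
    · have := hg d (fun δ hδ => by
        rcases h1 δ hδ with h | h
        · rw [h]
        · exact absurd ⟨δ, h⟩ hev)
      omega
  have ha1 := (hD a haD).1
  have : NeZero d := ⟨by omega⟩
  have hval : ((a : ℕ) : ZMod d).val = a := ZMod.val_natCast_of_lt had
  have ha0 : ((a : ℕ) : ZMod d) ≠ 0 := by
    intro h
    rw [h, ZMod.val_zero] at hval
    omega
  have hna : -((a : ℕ) : ZMod d) ≠ ((a : ℕ) : ZMod d) := by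
    intro h
    have h1 : ((2 * a : ℕ) : ZMod d) = 0 := by
      push_cast
      have : (2 : ZMod d) * a = a - (-a) := by ring
      rw [this, h, sub_self]
    rw [ZMod.natCast_eq_zero_iff] at h1
    obtain ⟨c, hc⟩ := h1
    rcases c with _ | _ | c
    · omega
    · omega
    · nlinarith
  have hsub : ({0, ((a : ℕ) : ZMod d), -((a : ℕ) : ZMod d)} : Finset (ZMod d)) ⊆ BB d D := by
    intro x hx
    simp only [Finset.mem_insert, Finset.mem_singleton] at hx
    have h1 : ((a : ℕ) : ZMod d) ∈ BB d D := by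
      unfold BB
      rw [Finset.mem_union, Finset.mem_image]
      exact Or.inl ⟨a, haD, rfl⟩
    rcases hx with rfl | rfl | rfl
    · exact BB_zero hdD
    · exact h1
    · exact BB_neg h1
  have hcard : ({0, ((a : ℕ) : ZMod d), -((a : ℕ) : ZMod d)} : Finset (ZMod d)).card = 3 := by
    rw [Finset.card_eq_three]
    exact ⟨_, _, _, ha0.symm, fun h => ha0 (neg_eq_zero.1 h.symm), hna.symm, rfl⟩
  have heq := Finset.eq_of_subset_of_card_le hsub (by omega)
  have hall : ∀ δ ∈ D, δ = a ∨ δ = d - a ∨ δ = d := by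
    intro δ hδ
    have hδ' := hD δ hδ
    have h1 : ((δ : ℕ) : ZMod d) ∈ BB d D := by
      unfold BB
      rw [Finset.mem_union, Finset.mem_image]
      exact Or.inl ⟨δ, hδ, rfl⟩
    rw [← heq] at h1
    simp only [Finset.mem_insert, Finset.mem_singleton] at h1
    rcases h1 with h1 | h1 | h1
    · rw [ZMod.natCast_eq_zero_iff] at h1
      right; right
      exact le_antisymm hδ'.2 (Nat.le_of_dvd (by omega) h1)
    · rcases Nat.eq_or_lt_of_le hδ'.2 with h2 | h2
      · right; right; exact h2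
      · left
        rw [ZMod.natCast_eq_natCast_iff', Nat.mod_eq_of_lt h2, Nat.mod_eq_of_lt had] at h1
        exact h1
    · right; left
      have h2 : ((δ + a : ℕ) : ZMod d) = 0 := by
        push_cast; rw [h1]; ring
      rw [ZMod.natCast_eq_zero_iff] at h2
      obtain ⟨c, hc⟩ := h2
      rcases c with _ | _ | c
      · omega
      · omega
      · nlinarith
  refine ⟨a, haD, had, ?_, hall⟩
  apply hg
  intro δ hδ
  have h1 : Nat.gcd a d ∣ a := Nat.gcd_dvd_left _ _
  have h2 : Nat.gcd a d ∣ d := Nat.gcd_dvd_right _ _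
  rcases hall δ hδ with h | h | h
  · rw [h]; exact h1
  · rw [h]; exact Nat.dvd_sub h2 h1
  · rw [h]; exact h2

/-- Hadwiger's conjecture for long rings with differences without a common divisor -/
theorem core {n d : ℕ} {D : Finset ℕ} (hdD : d ∈ D)
    (hD : ∀ δ ∈ D, 1 ≤ δ ∧ δ ≤ d) (hg : ∀ k : ℕ, (∀ δ ∈ D, k ∣ δ) → k = 1)
    (hn : 4 * d ^ 6 ≤ n) {k : ℕ} (hk : ¬ (circ n D).Colorable k) :
    CliqueMinor (circ n D) (k + 1) := by
  have hd1 := (hD d hdD).1
  have hpow : d ^ 2 ≤ d ^ 6 := Nat.pow_le_pow_right hd1 (by norm_num)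
  have hpow1 : d ^ 1 ≤ d ^ 6 := Nat.pow_le_pow_right hd1 (by norm_num)
  have hc2 : (circ n D).Colorable (d + 2) := colorable_two hd1 hD (by nlinarith)
  by_cases hd3 : 3 ≤ d
  · by_cases h4 : 4 ≤ (BB d D).card
    · have hd4 : 4 ≤ d := by
        have : NeZero d := ⟨by omega⟩
        have h5 := Finset.card_le_univ (BB d D)
        rw [ZMod.card] at h5
        omega
      exact (minorA hd3 hdD hD hg h4 hn).mono (by
        have := le_of_not_colorable hk hc2
        omega)
    · obtain ⟨a, haD, had, hcop, hall⟩ := two_gen hd3 hdD hD hg h4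
      have h3 : 3 ^ 4 ≤ d ^ 4 := Nat.pow_le_pow_left hd3 4
      have h5 : d ^ 6 = d ^ 4 * d ^ 2 := by ring
      have h6 : 81 * d ^ 2 ≤ d ^ 6 := by rw [h5]; exact Nat.mul_le_mul_right _ h3
      have hn' : 12 * d * d ≤ n := by nlinarith
      have hn'' : 18 * d ≤ n := by nlinarith
      have hc6 := colorable_six hd3 (hD a haD).1 had hcop hall hn'
      exact (minorB hd3 hdD hD haD hcop hn'').mono (le_of_not_colorable hk hc6)
  · have h1D : 1 ∈ D := by
      have hd12 : d = 1 ∨ d = 2 := by omega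
      rcases hd12 with rfl | rfl
      · exact hdD
      · by_contra h
        have := hg 2 (fun δ hδ => by
          have := hD δ hδ
          have h3 : δ ≠ 1 := fun h4 => h (h4 ▸ hδ)
          have : δ = 2 := by omega
          rw [this])
        omega
    have hfull : ∀ δ, 1 ≤ δ → δ ≤ d → δ ∈ D := by
      intro δ h1 h2
      have : δ = 1 ∨ δ = d := by omega
      rcases this with rfl | rfl
      · exact h1D
      · exact hdD
    exact (full_minor hd1 hfull (by nlinarith)).mono (le_of_not_colorable hk hc2)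

section reduction

variable {n n' g h u : ℕ} {D' : Finset ℕ}

/-- colourings of the component -/
lemma reduce_col (hn : 0 < n) (hnn : n = h * n') (hgu : g = h * u) (hcop : Nat.Coprime u n')
    (hD' : ∀ δ ∈ D', 1 ≤ δ ∧ δ < n') {k : ℕ} (hk : (circ n' D').Colorable k) :
    (circ n (D'.image (g * ·))).Colorable k := by
  have hh : 0 < h := by
    rcases Nat.eq_zero_or_pos h with h0 | h0
    · rw [h0, zero_mul] at hnn; omega
    · exact h0
  have hn' : 0 < n' := by
    rcases Nat.eq_zero_or_pos n' with h0 | h0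
    · rw [h0, mul_zero] at hnn; omega
    · exact h0
  have : NeZero n := ⟨hn.ne'⟩
  have : NeZero n' := ⟨hn'.ne'⟩
  obtain ⟨w, hw⟩ := (ZMod.isUnit_iff_coprime u n').2 hcop
  let φ : ZMod n → ZMod n' := fun x => (↑w⁻¹ : ZMod n') * ((x.val / h : ℕ) : ZMod n')
  have hφ : ∀ x y : ZMod n, ∀ δ : ℕ, x = y + ((g * δ : ℕ) : ZMod n) →
      φ x = φ y + (δ : ZMod n') := by
    intro x y δ hxy
    have h1 : ((x.val : ℕ) : ZMod n) = ((y.val + g * δ : ℕ) : ZMod n) := by
      rw [Nat.cast_add, ZMod.natCast_zmod_val, ZMod.natCast_zmod_val, hxy]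
    rw [ZMod.natCast_eq_natCast_iff] at h1
    have h2 := (Nat.modEq_iff_dvd.1 h1)
    obtain ⟨t, ht⟩ := h2
    have hx := Nat.div_add_mod x.val h
    have hy := Nat.div_add_mod y.val h
    have hmod : x.val % h = y.val % h := by
      have h3 : x.val ≡ y.val + g * δ [MOD h] := h1.of_dvd ⟨n', hnn⟩
      have h4 : y.val + g * δ ≡ y.val + 0 [MOD h] := by
        apply Nat.ModEq.add_left
        rw [Nat.modEq_zero_iff_dvd, hgu, mul_assoc]
        exact Dvd.intro _ rfl
      exact h3.trans h4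
    show (↑w⁻¹ : ZMod n') * ((x.val / h : ℕ) : ZMod n') =
      (↑w⁻¹ : ZMod n') * ((y.val / h : ℕ) : ZMod n') + δ
    rw [← hmod] at hy
    generalize x.val / h = X at hx ⊢
    generalize y.val / h = Y at hy ⊢
    generalize x.val % h = r at hx hy
    have hnZ : (n : ℤ) = h * n' := by exact_mod_cast hnn
    have hgZ : (g : ℤ) = h * u := by exact_mod_cast hgu
    have h5 : (Y : ℤ) + u * δ - X = n' * t := by
      have e1 : (h : ℤ) * (X : ℤ) + r = x.val := by exact_mod_cast hx
      have e2 : (h : ℤ) * (Y : ℤ) + r = y.val := by exact_mod_cast hy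
      have e3 : (h : ℤ) * ((Y : ℤ) + u * δ - X) = h * (n' * t) := by
        have ht' : ((y.val : ℤ) + g * δ) - x.val = n * t := by
          rw [← ht]; push_cast; ring
        linear_combination e2 - e1 + ht' - (δ : ℤ) * hgZ + t * hnZ
      have hh' : (h : ℤ) ≠ 0 := by exact_mod_cast hh.ne'
      exact mul_left_cancel₀ hh' e3
    have h6 : (Y : ZMod n') + u * δ - (X : ZMod n') = 0 := by
      have := congrArg (fun z : ℤ => (z : ZMod n')) h5
      push_cast at this
      rw [ZMod.natCast_self, zero_mul] at this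
      exact this
    have h7 : (X : ZMod n') = (Y : ZMod n') + u * δ := by
      linear_combination -h6
    rw [h7, mul_add, ← hw, ← mul_assoc, Units.inv_mul, one_mul]
  obtain ⟨C⟩ := hk
  refine ⟨SimpleGraph.Coloring.mk (fun x => C (φ x)) ?_⟩
  intro x y hxy
  apply C.valid
  rw [circ_adj] at hxy
  obtain ⟨hne, δ', hδ', hxy⟩ := hxy
  obtain ⟨δ, hδ, rfl⟩ := Finset.mem_image.1 hδ'
  have hδ0 : (δ : ZMod n') ≠ 0 := by
    intro h0
    rw [ZMod.natCast_eq_zero_iff] at h0
    have := hD' δ hδ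
    have := Nat.le_of_dvd (by omega) h0
    omega
  rw [circ_adj]
  rcases hxy with hxy | hxy
  · have h1 := hφ x y δ hxy
    refine ⟨?_, δ, hδ, Or.inl h1⟩
    intro h2
    rw [h1] at h2
    exact hδ0 (by simpa using h2)
  · have h1 := hφ y x δ hxy
    refine ⟨?_, δ, hδ, Or.inr h1⟩
    intro h2
    rw [h1] at h2
    exact hδ0 (by simpa using h2.symm)

/-- minors of the component -/
lemma reduce_minor (hn : 0 < n) (hnn : n = h * n') (hgu : g = h * u) (hcop : Nat.Coprime u n')
    {k : ℕ} (hk : CliqueMinor (circ n' D') k) :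
    CliqueMinor (circ n (D'.image (g * ·))) k := by
  have hh : 0 < h := by
    rcases Nat.eq_zero_or_pos h with h0 | h0
    · rw [h0, zero_mul] at hnn; omega
    · exact h0
  have hn' : 0 < n' := by
    rcases Nat.eq_zero_or_pos n' with h0 | h0
    · rw [h0, mul_zero] at hnn; omega
    · exact h0
  have : NeZero n := ⟨hn.ne'⟩
  have : NeZero n' := ⟨hn'.ne'⟩
  let ψ : ZMod n' → ZMod n := fun y => ((g * y.val : ℕ) : ZMod n)
  have hψ : ∀ x y : ZMod n', ∀ δ : ℕ, x = y + (δ : ZMod n') →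
      ψ x = ψ y + ((g * δ : ℕ) : ZMod n) := by
    intro x y δ hxy
    have h1 : ((x.val : ℕ) : ZMod n') = ((y.val + δ : ℕ) : ZMod n') := by
      rw [Nat.cast_add, ZMod.natCast_zmod_val, ZMod.natCast_zmod_val, hxy]
    rw [ZMod.natCast_eq_natCast_iff] at h1
    obtain ⟨t, ht⟩ := Nat.modEq_iff_dvd.1 h1
    show ((g * x.val : ℕ) : ZMod n) = ((g * y.val : ℕ) : ZMod n) + ((g * δ : ℕ) : ZMod n)
    rw [← Nat.cast_add, ZMod.natCast_eq_natCast_iff]
    apply Nat.modEq_iff_dvd.2
    refine ⟨u * t, ?_⟩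
    push_cast at ht ⊢
    have hnZ : (n : ℤ) = h * n' := by exact_mod_cast hnn
    have hgZ : (g : ℤ) = h * u := by exact_mod_cast hgu
    rw [hnZ, hgZ]
    linear_combination (h : ℤ) * u * ht
  have hinj : Function.Injective ψ := by
    intro x y hxy
    have h1 : ((g * x.val : ℕ) : ZMod n) = ((g * y.val : ℕ) : ZMod n) := hxy
    rw [ZMod.natCast_eq_natCast_iff, hgu, hnn, mul_assoc, mul_assoc] at h1
    have h2 := Nat.ModEq.mul_left_cancel' hh.ne' h1
    have h3 : x.val ≡ y.val [MOD n'] :=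
      Nat.ModEq.cancel_left_of_coprime (by rw [Nat.gcd_comm]; exact hcop) h2
    have h4 : x.val = y.val := by
      have := h3
      unfold Nat.ModEq at this
      rwa [Nat.mod_eq_of_lt (ZMod.val_lt x), Nat.mod_eq_of_lt (ZMod.val_lt y)] at this
    exact ZMod.val_injective n' h4
  refine hk.map ψ hinj ?_
  intro x y hxy
  rw [circ_adj] at hxy ⊢
  obtain ⟨hne, δ, hδ, hxy⟩ := hxy
  refine ⟨fun h0 => hne (hinj h0), g * δ, Finset.mem_image.2 ⟨δ, hδ, rfl⟩, ?_⟩
  rcases hxy with hxy | hxy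
  · exact Or.inl (hψ _ _ _ hxy)
  · exact Or.inr (hψ _ _ _ hxy)

end reduction

/-- **Hadwiger's conjecture for sparse circulant graphs.** -/
theorem hadwiger_circ {n d : ℕ} {D : Finset ℕ} (hn0 : 0 < n) (hD : ∀ δ ∈ D, 1 ≤ δ ∧ δ ≤ d)
    (hn : 4 * d ^ 6 ≤ n) {k : ℕ} (hk : ¬ (circ n D).Colorable k) :
    CliqueMinor (circ n D) (k + 1) := by
  classical
  have : NeZero n := ⟨hn0.ne'⟩
  rcases D.eq_empty_or_nonempty with rfl | hne
  · -- no edges
    have h1 : (circ n ∅).Colorable 1 := by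
      refine ⟨SimpleGraph.Coloring.mk (fun _ => 0) ?_⟩
      intro x y hxy
      rw [circ_adj] at hxy
      obtain ⟨_, δ, hδ, _⟩ := hxy
      simp at hδ
    have hk0 := le_of_not_colorable hk h1
    have : k = 0 := by omega
    subst this
    refine ⟨fun _ => {0}, ?_, ?_, ?_⟩
    · intro i
      rw [SimpleGraph.connected_iff]
      refine ⟨?_, ⟨⟨0, rfl⟩⟩⟩
      intro a b
      have : a = b := Subsingleton.elim _ _
      rw [this]
    · intro i j hij; exact absurd (Fin.ext (by omega)) hij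
    · intro i j hij; exact absurd (Fin.ext (by omega)) hij
  · obtain ⟨m, hmD, hmax⟩ := D.exists_max_image id hne
    simp only [id] at hmax
    have hm1 := hD m hmD
    set g := D.gcd id with hg
    have hgdvd : ∀ δ ∈ D, g ∣ δ := fun δ hδ => Finset.gcd_dvd (f := id) hδ
    have hg0 : 0 < g := by
      rcases Nat.eq_zero_or_pos g with h0 | h0
      · have := hgdvd m hmD
        rw [h0, zero_dvd_iff] at this
        omega
      · exact h0
    set D' := D.image (· / g) with hD'
    have hDD' : D = D'.image (g * ·) := by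
      rw [hD', Finset.image_image]
      ext δ
      rw [Finset.mem_image]
      constructor
      · intro hδ
        exact ⟨δ, hδ, Nat.mul_div_cancel' (hgdvd δ hδ)⟩
      · rintro ⟨δ', hδ', h⟩
        rw [← h]
        simp only [Function.comp]
        rw [Nat.mul_div_cancel' (hgdvd δ' hδ')]
        exact hδ'
    obtain ⟨d', hd'⟩ := hgdvd m hmD
    have hd'D : d' ∈ D' := by
      rw [hD', Finset.mem_image]
      exact ⟨m, hmD, by rw [hd', Nat.mul_div_cancel_left _ hg0]⟩
    have hD'1 : ∀ δ ∈ D', 1 ≤ δ ∧ δ ≤ d' := by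
      intro δ hδ
      rw [hD', Finset.mem_image] at hδ
      obtain ⟨δ0, hδ0, rfl⟩ := hδ
      constructor
      · exact Nat.div_pos (Nat.le_of_dvd (hD δ0 hδ0).1 (hgdvd δ0 hδ0)) hg0
      · have := hmax δ0 hδ0
        rw [hd'] at this
        exact (Nat.div_le_iff_le_mul_add_pred hg0).2 (by omega)
    have hg' : ∀ k : ℕ, (∀ δ ∈ D', k ∣ δ) → k = 1 := by
      intro k hk
      have h1 : g * k ∣ g := by
        rw [hg]
        apply Finset.dvd_gcd
        intro δ hδ
        rw [id, ← hg]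
        obtain ⟨c, hc⟩ := hk (δ / g) (by rw [hD', Finset.mem_image]; exact ⟨δ, hδ, rfl⟩)
        refine ⟨c, ?_⟩
        rw [mul_assoc, ← hc, Nat.mul_div_cancel' (hgdvd δ hδ)]
      have h2 := Nat.le_of_dvd hg0 h1
      have h3 : k ≠ 0 := by
        intro h0
        rw [h0, mul_zero, zero_dvd_iff] at h1
        omega
      have h4 : ¬ 2 ≤ k := by
        intro h5
        have : g * 2 ≤ g * k := Nat.mul_le_mul_left _ h5
        omega
      omega
    have hd'1 := (hD'1 d' hd'D).1
    -- the component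
    set h := Nat.gcd n g with hh
    have hh0 : 0 < h := Nat.gcd_pos_of_pos_left _ hn0
    obtain ⟨n', hnn⟩ := Nat.gcd_dvd_left n g
    obtain ⟨u, hgu⟩ := Nat.gcd_dvd_right n g
    rw [← hh] at hnn hgu
    have hcop : Nat.Coprime u n' := by
      have h1 := Nat.coprime_div_gcd_div_gcd (m := n) (n := g) hh0
      rw [← hh] at h1
      have e1 : n / h = n' := by
        conv_lhs => rw [hnn]
        exact Nat.mul_div_cancel_left _ hh0
      have e2 : g / h = u := by
        conv_lhs => rw [hgu]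
        exact Nat.mul_div_cancel_left _ hh0
      rw [e1, e2] at h1
      exact h1.symm
    have hn' : 4 * d' ^ 6 ≤ n' := by
      have h1 : g * d' ≤ d := by rw [← hd']; exact hm1.2
      have h2 : (g * d') ^ 6 ≤ d ^ 6 := Nat.pow_le_pow_left h1 6
      have h3 : g ≤ g ^ 6 := Nat.le_self_pow (by norm_num) g
      have h4 : h ≤ g := Nat.le_of_dvd hg0 (Nat.gcd_dvd_right _ _)
      have h5 : h * (4 * d' ^ 6) ≤ h * n' := by
        calc h * (4 * d' ^ 6) ≤ g * (4 * d' ^ 6) := Nat.mul_le_mul_right _ h4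
          _ ≤ g ^ 6 * (4 * d' ^ 6) := Nat.mul_le_mul_right _ h3
          _ = 4 * (g * d') ^ 6 := by ring
          _ ≤ 4 * d ^ 6 := Nat.mul_le_mul_left _ h2
          _ ≤ n := hn
          _ = h * n' := hnn
      exact Nat.le_of_mul_le_mul_left h5 hh0
    have hlt : ∀ δ ∈ D', 1 ≤ δ ∧ δ < n' := by
      intro δ hδ
      have h1 := hD'1 δ hδ
      have h2 : d' ≤ d' ^ 6 := Nat.le_self_pow (by norm_num) d'
      omega
    rw [hDD'] at hk ⊢
    have hk' : ¬ (circ n' D').Colorable k := fun h0 => hk (reduce_col hn0 hnn hgu hcop hlt h0)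
    exact reduce_minor hn0 hnn hgu hcop (core hd'D hD'1 hg' hn' hk')

end Pool.Agent.H55.SC
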