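import Mathlib

/-!
# Carriers on residue tracks of a ring

The vertices `0, …, n - 1` of a circulant graph are cut into blocks; in each block a carrier
occupies a connected set of residue tracks modulo `d`.
-/

namespace Pool.Agent.H55.SC

open Relation

/-- adjacency of the circulant graph, on natural numbers below `n` -/
def A (n : ℕ) (D : Finset ℕ) (a b : ℕ) : Prop :=
  a < n ∧ b < n ∧ a ≠ b ∧ ∃ δ ∈ D, a + δ = b ∨ b + δ = a ∨ a + δ = b + n ∨ b + δ = a + n

lemma A.symm {n : ℕ} {D : Finset ℕ} {a b : ℕ} (h : A n D a b) : A n D b a := by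
  obtain ⟨h1, h2, h3, δ, hδ, h4⟩ := h
  refine ⟨h2, h1, h3.symm, δ, hδ, ?_⟩
  tauto

/-- connected within the set `P` -/
def RP (n : ℕ) (D : Finset ℕ) (P : ℕ → Prop) (x y : ℕ) : Prop :=
  ReflTransGen (fun a b => P a ∧ P b ∧ A n D a b) x y

lemma RP.symm {n : ℕ} {D : Finset ℕ} {P : ℕ → Prop} {x y : ℕ} (h : RP n D P x y) :
    RP n D P y x := by
  unfold RP at *
  induction h with
  | refl => exact ReflTransGen.refl
  | tail _ h2 ih => exact ReflTransGen.head ⟨h2.2.1, h2.1, h2.2.2.symm⟩ ih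

lemma RP.trans {n : ℕ} {D : Finset ℕ} {P : ℕ → Prop} {x y z : ℕ} (h : RP n D P x y)
    (h' : RP n D P y z) : RP n D P x z := ReflTransGen.trans h h'

lemma RP.single {n : ℕ} {D : Finset ℕ} {P : ℕ → Prop} {x y : ℕ} (hx : P x) (hy : P y)
    (h : A n D x y) : RP n D P x y := ReflTransGen.single ⟨hx, hy, h⟩

lemma RP.mono {n : ℕ} {D : Finset ℕ} {P Q : ℕ → Prop} (hPQ : ∀ x, P x → Q x) {x y : ℕ}
    (h : RP n D P x y) : RP n D Q x y := by
  unfold RP at *
  induction h with
  | refl => exact ReflTransGen.refl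
  | tail _ h2 ih => exact ih.tail ⟨hPQ _ h2.1, hPQ _ h2.2.1, h2.2.2⟩

/-- the block of a vertex -/
def blk (T L x : ℕ) : ℕ := min (x / L) T

lemma blk_mono {T L x y : ℕ} (h : x ≤ y) : blk T L x ≤ blk T L y :=
  min_le_min_right _ (Nat.div_le_div_right h)

/-- adjacency of tracks -/
def Hadj {d : ℕ} (D : Finset ℕ) (r r' : ZMod d) : Prop :=
  ∃ δ ∈ D, r + (δ : ZMod d) = r' ∨ r' + (δ : ZMod d) = r

lemma Hadj.symm {d : ℕ} {D : Finset ℕ} {r r' : ZMod d} (h : Hadj D r r') : Hadj D r' r := by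
  obtain ⟨δ, hδ, h⟩ := h
  exact ⟨δ, hδ, h.symm⟩

variable {Λ : Type}

/-- the part of the carrier `i` in the blocks `s ≤ b < e` -/
def Car (n d T L : ℕ) (g : ℕ → Λ → ZMod d → Prop) (i : Λ) (s e x : ℕ) : Prop :=
  x < n ∧ s ≤ blk T L x ∧ blk T L x < e ∧ g (blk T L x) i (x : ZMod d)

/-- numerical hypotheses on the ring -/
structure Dat (n d T L : ℕ) (D : Finset ℕ) : Prop where
  d0 : 0 < d
  dD : d ∈ D
  hD : ∀ δ ∈ D, 1 ≤ δ ∧ δ ≤ d
  hL : 2 * d ≤ L
  hn : L * (T + 1) ≤ n

section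
variable {n d T L : ℕ} {D : Finset ℕ}

lemma Dat.L0 (h : Dat n d T L D) : 0 < L := by have := h.hL; have := h.d0; omega

lemma Dat.blk_eq (h : Dat n d T L D) {b x : ℕ} (hb : b ≤ T) (h1 : L * b ≤ x)
    (h2 : x < L * (b + 1)) : blk T L x = b ∧ x < n := by
  have hL := h.L0
  constructor
  · have : x / L = b := by
      apply Nat.div_eq_of_lt_le
      · rw [mul_comm]; exact h1
      · rw [mul_comm]; exact h2
    unfold blk
    rw [this]
    exact min_eq_left hb
  · have h3 : L * (b + 1) ≤ L * (T + 1) := Nat.mul_le_mul_left _ (by omega)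
    have := h.hn
    omega

lemma Dat.blk_last (h : Dat n d T L D) {x : ℕ} (h1 : L * T ≤ x) : blk T L x = T := by
  have hL := h.L0
  unfold blk
  apply min_eq_right
  rw [Nat.le_div_iff_mul_le hL, mul_comm]
  exact h1

/-- a vertex of given track in a window of length `d` -/
lemma exists_track (hd : 0 < d) (B : ℕ) (r : ZMod d) :
    ∃ x, B ≤ x ∧ x < B + d ∧ (x : ZMod d) = r := by
  have : NeZero d := ⟨hd.ne'⟩
  refine ⟨B + (r - (B : ZMod d)).val, by omega, ?_, ?_⟩
  · have := ZMod.val_lt (r - (B : ZMod d))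
    omega
  · rw [Nat.cast_add, ZMod.natCast_zmod_val]
    ring

lemma Dat.rung (h : Dat n d T L D) {P : ℕ → Prop} {x : ℕ} : ∀ {y : ℕ}, x ≤ y → y < n →
    (x : ZMod d) = (y : ZMod d) →
    (∀ z, x ≤ z → z ≤ y → (z : ZMod d) = (x : ZMod d) → P z) → RP n D P x y := by
  intro y
  induction y using Nat.strong_induction_on with
  | _ y ih =>
    intro hxy hyn hr hP
    rcases Nat.eq_or_lt_of_le hxy with heq | hlt
    · subst heq; exact ReflTransGen.refl
    · have hdvd : d ∣ y - x := by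
        rw [← ZMod.natCast_eq_zero_iff, Nat.cast_sub hxy, hr, sub_self]
      have hle : d ≤ y - x := Nat.le_of_dvd (by omega) hdvd
      have hd := h.d0
      have hz : ((y - d : ℕ) : ZMod d) = (x : ZMod d) := by
        rw [Nat.cast_sub (by omega), ZMod.natCast_self, sub_zero, hr]
      have h1 := ih (y - d) (by omega) (by omega) (by omega) hz.symm
        (fun z hz1 hz2 hz3 => hP z hz1 (by omega) hz3)
      refine h1.trans (RP.single (hP _ (by omega) (by omega) hz)
        (hP _ hxy le_rfl hr.symm) ?_)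
      exact ⟨by omega, hyn, by omega, d, h.dD, Or.inl (by omega)⟩

/-- two vertices of the same block in the same track are connected in that block and track -/
lemma Dat.rung' (h : Dat n d T L D) {P : ℕ → Prop} {x y : ℕ} (hx : x < n) (hy : y < n)
    (hb : blk T L x = blk T L y) (hr : (x : ZMod d) = (y : ZMod d))
    (hP : ∀ z, z < n → blk T L z = blk T L x → (z : ZMod d) = (x : ZMod d) → P z) :
    RP n D P x y := by
  rcases le_total x y with hxy | hxy
  · apply h.rung hxy hy hr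
    intro z h1 h2 h3
    apply hP z (by omega) _ h3
    have := blk_mono (T := T) (L := L) h1
    have := blk_mono (T := T) (L := L) h2
    omega
  · apply RP.symm
    apply h.rung hxy hx hr.symm
    intro z h1 h2 h3
    apply hP z (by omega) _ (h3.trans hr.symm)
    have := blk_mono (T := T) (L := L) h1
    have := blk_mono (T := T) (L := L) h2
    omega

/-- adjacent tracks are joined by an edge in every block -/
lemma Dat.hstep (h : Dat n d T L D) {b : ℕ} (hb : b ≤ T) {r r' : ZMod d} (hr : Hadj D r r') :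
    ∃ x y, blk T L x = b ∧ blk T L y = b ∧ (x : ZMod d) = r ∧ (y : ZMod d) = r' ∧ A n D x y := by
  have key : ∀ {r r' : ZMod d} {δ : ℕ}, δ ∈ D → r + (δ : ZMod d) = r' →
      ∃ x y, blk T L x = b ∧ blk T L y = b ∧ (x : ZMod d) = r ∧ (y : ZMod d) = r' ∧
        A n D x y := by
    intro r r' δ hδ hrr
    obtain ⟨x, hx1, hx2, hx3⟩ := exists_track h.d0 (L * b) r
    have h1 := h.hD δ hδ
    have h2 := h.hL
    have e1 : L * (b + 1) = L * b + L := by ring
    have b1 := h.blk_eq hb hx1 (by omega)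
    have b2 := h.blk_eq hb (x := x + δ) (by omega) (by omega)
    refine ⟨x, x + δ, b1.1, b2.1, hx3, ?_, b1.2, b2.2, by omega, δ, hδ, Or.inl rfl⟩
    rw [Nat.cast_add, hx3, hrr]
  obtain ⟨δ, hδ, hrr | hrr⟩ := hr
  · exact key hδ hrr
  · obtain ⟨x, y, h1, h2, h3, h4, h5⟩ := key hδ hrr
    exact ⟨y, x, h2, h1, h4, h3, h5.symm⟩

/-- a track runs from each block to the next one -/
lemma Dat.next (h : Dat n d T L D) {b : ℕ} (hb : b < T) (r : ZMod d) :
    ∃ x y, blk T L x = b ∧ blk T L y = b + 1 ∧ (x : ZMod d) = r ∧ (y : ZMod d) = r ∧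
      A n D x y := by
  have h2 := h.hL
  have hd := h.d0
  have e1 : L * (b + 1) = L * b + L := by ring
  have e2 : L * (b + 1 + 1) = L * b + L + L := by ring
  obtain ⟨x, hx1, hx2, hx3⟩ := exists_track h.d0 (L * (b + 1) - d) r
  have b1 := h.blk_eq hb.le (x := x) (by omega) (by omega)
  have b2 := h.blk_eq (b := b + 1) hb (x := x + d) (by omega) (by omega)
  refine ⟨x, x + d, b1.1, b2.1, hx3, ?_, b1.2, b2.2, by omega, d, h.dD, Or.inl rfl⟩
  rw [Nat.cast_add, ZMod.natCast_self, add_zero, hx3]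

/-- a track runs from the last block to the first one, shifted by `n` -/
lemma Dat.closing (h : Dat n d T L D) (hT : 0 < T) (r : ZMod d) :
    ∃ x y, blk T L x = T ∧ blk T L y = 0 ∧ (x : ZMod d) = r ∧ (y : ZMod d) = r - (n : ZMod d) ∧
      A n D x y := by
  have h2 := h.hL
  have hd := h.d0
  have hn := h.hn
  have e1 : L * (T + 1) = L * T + L := by ring
  have e2 : L ≤ L * T := Nat.le_mul_of_pos_right _ hT
  obtain ⟨x, hx1, hx2, hx3⟩ := exists_track h.d0 (n - d) r
  have b2 := h.blk_eq (b := 0) (by omega) (x := x + d - n) (by omega) (by omega)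
  refine ⟨x, x + d - n, h.blk_last (by omega), b2.1, hx3, ?_, by omega, b2.2, by omega, d, h.dD,
    Or.inr (Or.inr (Or.inl (by omega)))⟩
  rw [Nat.cast_sub (by omega), Nat.cast_add, ZMod.natCast_self, add_zero, hx3]

/-- the track sets of the carriers: `o` is a label without a carrier -/
structure Frm (n d T : ℕ) (D : Finset ℕ) (o : Λ) (g : ℕ → Λ → ZMod d → Prop) : Prop where
  dis : ∀ b, b ≤ T → ∀ i j, i ≠ o → j ≠ o → i ≠ j → ∀ r, g b i r → ¬ g b j r
  con : ∀ b, b ≤ T → ∀ i, i ≠ o → ∀ r r', g b i r → g b i r' →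
    ReflTransGen (fun a c => g b i a ∧ g b i c ∧ Hadj D a c) r r'
  nxt : ∀ b, b < T → ∀ i, i ≠ o → ∃ r, g b i r ∧ g (b + 1) i r

variable {o : Λ} {g : ℕ → Λ → ZMod d → Prop}

lemma car_block (h : Dat n d T L D) (F : Frm n d T D o g) {i : Λ} (hi : i ≠ o) {s e x y : ℕ}
    (hx : Car n d T L g i s e x) (hy : Car n d T L g i s e y) (hb : blk T L x = blk T L y) :
    RP n D (Car n d T L g i s e) x y := by
  have hbT : blk T L x ≤ T := min_le_right _ _
  have key : ∀ r', ReflTransGen (fun a c => g (blk T L x) i a ∧ g (blk T L x) i c ∧ Hadj D a c)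
      (x : ZMod d) r' → ∀ y, y < n → blk T L y = blk T L x → (y : ZMod d) = r' →
      RP n D (Car n d T L g i s e) x y := by
    intro r' hr'
    induction hr' with
    | refl =>
      intro y hy1 hy2 hy3
      apply h.rung' hx.1 hy1 hy2.symm hy3.symm
      intro z hz1 hz2 hz3
      refine ⟨hz1, ?_, ?_, ?_⟩
      · rw [hz2]; exact hx.2.1
      · rw [hz2]; exact hx.2.2.1
      · rw [hz2, hz3]; exact hx.2.2.2
    | tail _ h2 ih =>
      intro y hy1 hy2 hy3
      obtain ⟨x', y', e1, e2, e3, e4, e5⟩ := h.hstep hbT h2.2.2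
      have hcar : ∀ z, z < n → blk T L z = blk T L x → g (blk T L x) i (z : ZMod d) →
          Car n d T L g i s e z := by
        intro z h1 h2 h3
        refine ⟨h1, ?_, ?_, ?_⟩
        · rw [h2]; exact hx.2.1
        · rw [h2]; exact hx.2.2.1
        · rw [h2]; exact h3
      have c1 := ih x' e5.1 e1 e3
      have c2 : RP n D (Car n d T L g i s e) x' y' :=
        RP.single (hcar x' e5.1 e1 (e3 ▸ h2.1)) (hcar y' e5.2.1 e2 (e4 ▸ h2.2.1)) e5
      refine (c1.trans c2).trans (h.rung' e5.2.1 hy1 (e2.trans hy2.symm) (e4.trans hy3.symm) ?_)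
      intro z hz1 hz2 hz3
      exact hcar z hz1 (hz2.trans e2) (by rw [hz3, e4]; exact h2.2.1)
  exact key _ (F.con _ hbT i hi _ _ hx.2.2.2 (hb ▸ hy.2.2.2)) y hy.1 hb.symm rfl

lemma car_conn (h : Dat n d T L D) (F : Frm n d T D o g) {i : Λ} (hi : i ≠ o) {s e : ℕ}
    {x y : ℕ} (hx : Car n d T L g i s e x) (hy : Car n d T L g i s e y) :
    RP n D (Car n d T L g i s e) x y := by
  have key : ∀ k x y, Car n d T L g i s e x → Car n d T L g i s e y →
      blk T L y = blk T L x + k → RP n D (Car n d T L g i s e) x y := by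
    intro k
    induction k with
    | zero =>
      intro x y hx hy hb
      exact car_block h F hi hx hy hb.symm
    | succ k ih =>
      intro x y hx hy hb
      have hyT : blk T L y ≤ T := min_le_right _ _
      have hbT : blk T L x + k < T := by omega
      obtain ⟨r, hr1, hr2⟩ := F.nxt _ hbT i hi
      obtain ⟨x', y', e1, e2, e3, e4, e5⟩ := h.next hbT r
      have c1 : Car n d T L g i s e x' := by
        refine ⟨e5.1, ?_, ?_, ?_⟩
        · rw [e1]; have := hx.2.1; omega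
        · rw [e1]; have := hy.2.2.1; omega
        · rw [e1, e3]; exact hr1
      have c2 : Car n d T L g i s e y' := by
        refine ⟨e5.2.1, ?_, ?_, ?_⟩
        · rw [e2]; have := hx.2.1; omega
        · rw [e2]; have := hy.2.2.1; omega
        · rw [e2, e4]; exact hr2
      exact ((ih x x' hx c1 e1).trans (RP.single c1 c2 e5)).trans
        (car_block h F hi c2 hy (by omega))
  rcases le_total (blk T L x) (blk T L y) with hle | hle
  · exact key (blk T L y - blk T L x) x y hx hy (by omega)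
  · exact (key (blk T L x - blk T L y) y x hy hx (by omega)).symm

/-- two carriers which use adjacent tracks in a common block are adjacent -/
lemma car_adj (h : Dat n d T L D) {i j : Λ} {s e s' e' b : ℕ} (hb : b ≤ T)
    (h1 : s ≤ b) (h2 : b < e) (h3 : s' ≤ b) (h4 : b < e') {r r' : ZMod d} (hr : g b i r)
    (hr' : g b j r') (hH : Hadj D r r') :
    ∃ x y, Car n d T L g i s e x ∧ Car n d T L g j s' e' y ∧ A n D x y := by
  obtain ⟨x, y, e1, e2, e3, e4, e5⟩ := h.hstep hb hH
  refine ⟨x, y, ⟨e5.1, ?_, ?_, ?_⟩, ⟨e5.2.1, ?_, ?_, ?_⟩, e5⟩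
  · rw [e1]; exact h1
  · rw [e1]; exact h2
  · rw [e1, e3]; exact hr
  · rw [e2]; exact h3
  · rw [e2]; exact h4
  · rw [e2, e4]; exact hr'

/-- the parts of a carrier before and after a cut are adjacent -/
lemma car_cut (h : Dat n d T L D) (F : Frm n d T D o g) {i : Λ} (hi : i ≠ o) {s m e : ℕ}
    (h1 : s < m) (h2 : m < e) (h3 : m ≤ T) :
    ∃ x y, Car n d T L g i s m x ∧ Car n d T L g i m e y ∧ A n D x y := by
  obtain ⟨b, rfl⟩ : ∃ b, m = b + 1 := ⟨m - 1, by omega⟩
  obtain ⟨r, hr1, hr2⟩ := F.nxt b (by omega) i hi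
  obtain ⟨x, y, e1, e2, e3, e4, e5⟩ := h.next (b := b) (by omega) r
  refine ⟨x, y, ⟨e5.1, ?_, ?_, ?_⟩, ⟨e5.2.1, ?_, ?_, ?_⟩, e5⟩
  · rw [e1]; omega
  · rw [e1]; omega
  · rw [e1, e3]; exact hr1
  · rw [e2]
  · rw [e2]; omega
  · rw [e2, e4]; exact hr2

lemma car_dis (F : Frm n d T D o g) {i j : Λ} (hi : i ≠ o) (hj : j ≠ o) {s e s' e' x : ℕ}
    (h1 : i ≠ j ∨ e ≤ s' ∨ e' ≤ s) (hx : Car n d T L g i s e x)
    (hy : Car n d T L g j s' e' x) : False := by
  have hbT : blk T L x ≤ T := min_le_right _ _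
  rcases h1 with h1 | h1 | h1
  · exact F.dis _ hbT i j hi hj h1 _ hx.2.2.2 hy.2.2.2
  · have := hx.2.2.1; have := hy.2.1; omega
  · have := hy.2.2.1; have := hx.2.1; omega

lemma car_ne (h : Dat n d T L D) (F : Frm n d T D o g) {i : Λ} (hi : i ≠ o) {s e : ℕ}
    (h1 : s < e) (h2 : s < T) : ∃ x, Car n d T L g i s e x := by
  obtain ⟨r, hr1, hr2⟩ := F.nxt s h2 i hi
  obtain ⟨x, y, e1, e2, e3, e4, e5⟩ := h.next h2 r
  refine ⟨x, e5.1, ?_, ?_, ?_⟩
  · rw [e1]
  · rw [e1]; exact h1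
  · rw [e1, e3]; exact hr1

end

end Pool.Agent.H55.SC
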