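import Pool.Agent.H55.SC.Cut
import Pool.Agent.H55.SC.Conn

/-!
# Sliding the carriers with one vacant track
-/

namespace Pool.Agent.H55.SC

open Relation Finset Pointwise

variable {d : ℕ} {D : Finset ℕ}

/-- the differences of adjacent or equal tracks -/
def BB (d : ℕ) (D : Finset ℕ) : Finset (ZMod d) :=
  D.image (fun δ : ℕ => (δ : ZMod d)) ∪ D.image (fun δ : ℕ => -(δ : ZMod d))

lemma hadj_iff {r r' : ZMod d} : Hadj D r r' ↔ r' - r ∈ BB d D := by
  unfold Hadj BB
  rw [mem_union, mem_image, mem_image]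
  constructor
  · rintro ⟨δ, hδ, h | h⟩
    · left; exact ⟨δ, hδ, by rw [← h]; ring⟩
    · right; exact ⟨δ, hδ, by rw [← h]; ring⟩
  · rintro (⟨δ, hδ, h⟩ | ⟨δ, hδ, h⟩)
    · exact ⟨δ, hδ, Or.inl (by rw [h]; ring)⟩
    · refine ⟨δ, hδ, Or.inr ?_⟩
      have : (δ : ZMod d) = r - r' := by
        have := congrArg (fun z => -z) h
        simpa using this
      rw [this]; ring

lemma BB_neg {x : ZMod d} (hx : x ∈ BB d D) : -x ∈ BB d D := by
  unfold BB at *
  rw [mem_union, mem_image, mem_image] at *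
  rcases hx with ⟨δ, hδ, h⟩ | ⟨δ, hδ, h⟩
  · right; exact ⟨δ, hδ, by rw [h]⟩
  · left; exact ⟨δ, hδ, by rw [← h]; ring⟩

lemma BB_zero (hdD : d ∈ D) : (0 : ZMod d) ∈ BB d D := by
  unfold BB
  rw [mem_union, mem_image]
  exact Or.inl ⟨d, hdD, ZMod.natCast_self d⟩

/-- the differences generate all tracks -/
lemma BB_gen (hg : ∀ k : ℕ, (∀ δ ∈ D, k ∣ δ) → k = 1) (H : AddSubgroup (ZMod d))
    (h : ∀ x ∈ BB d D, x ∈ H) : H = ⊤ := by
  obtain ⟨a, ha⟩ := Int.subgroup_cyclic (H.comap (Int.castAddHom (ZMod d)))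
  have h1 : ∀ z : ℤ, z ∈ H.comap (Int.castAddHom (ZMod d)) ↔ a ∣ z := by
    intro z
    rw [ha, AddSubgroup.mem_closure_singleton]
    constructor
    · rintro ⟨n, hn⟩
      exact ⟨n, by rw [← hn, smul_eq_mul, mul_comm]⟩
    · rintro ⟨n, hn⟩
      exact ⟨n, by rw [hn, smul_eq_mul, mul_comm]⟩
  have h2 : a.natAbs = 1 := by
    apply hg
    intro δ hδ
    rw [← Int.natCast_dvd_natCast, Int.natAbs_dvd]
    rw [← h1, AddSubgroup.mem_comap]
    simp only [Int.coe_castAddHom, Int.cast_natCast]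
    apply h
    unfold BB
    rw [mem_union, mem_image]
    exact Or.inl ⟨δ, hδ, rfl⟩
  have h3 : ∀ z : ℤ, (z : ZMod d) ∈ H := by
    intro z
    have : z ∈ H.comap (Int.castAddHom (ZMod d)) := by
      rw [h1, ← Int.natAbs_dvd, h2]; simp
    simpa using this
  rw [eq_top_iff]
  intro x _
  obtain ⟨z, rfl⟩ := ZMod.intCast_surjective x
  exact h3 z

/-- the graph of tracks -/
def Hg (d : ℕ) (D : Finset ℕ) : SimpleGraph (ZMod d) := SimpleGraph.fromRel (Hadj D)

lemma Hg_adj {a b : ZMod d} : (Hg d D).Adj a b ↔ a ≠ b ∧ Hadj D a b := by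
  unfold Hg
  rw [SimpleGraph.fromRel_adj]
  constructor
  · rintro ⟨h1, h2 | h2⟩
    · exact ⟨h1, h2⟩
    · exact ⟨h1, h2.symm⟩
  · rintro ⟨h1, h2⟩
    exact ⟨h1, Or.inl h2⟩

lemma Hg_reach {a x : ZMod d} (hx : x ∈ BB d D) : (Hg d D).Reachable a (a + x) := by
  by_cases h0 : a = a + x
  · rw [← h0]
  · apply SimpleGraph.Adj.reachable
    rw [Hg_adj]
    exact ⟨h0, hadj_iff.2 (by simpa using hx)⟩

lemma Hg_conn (hg : ∀ k : ℕ, (∀ δ ∈ D, k ∣ δ) → k = 1) : (Hg d D).Connected := by
  let H : AddSubgroup (ZMod d) :=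
    { carrier := {x | ∀ a, (Hg d D).Reachable a (a + x)}
      add_mem' := by
        intro x y hx hy a
        have h1 := hx a
        have h2 := hy (a + x)
        rw [add_assoc] at h2
        exact h1.trans h2
      zero_mem' := by
        intro a
        rw [add_zero]
      neg_mem' := by
        intro x hx a
        have h1 := hx (a + -x)
        rw [neg_add_cancel_right] at h1
        exact h1.symm }
  have hH : H = ⊤ := BB_gen hg H fun x hx a => Hg_reach hx
  rw [SimpleGraph.connected_iff]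
  refine ⟨?_, ⟨0⟩⟩
  intro a b
  have h1 : b - a ∈ H := by rw [hH]; trivial
  have h2 := h1 a
  simpa using h2

lemma Hg_three [NeZero d] (hdD : d ∈ D) (hg : ∀ k : ℕ, (∀ δ ∈ D, k ∣ δ) → k = 1)
    (h4 : 4 ≤ (BB d D).card) (u v : ZMod d) :
    ((Hg d D).induce {x | x ≠ u ∧ x ≠ v}).Preconnected := by
  classical
  intro x y
  by_contra hxy
  let A : Finset (ZMod d) := univ.filter fun z =>
    ∃ hz : z ∈ {x | x ≠ u ∧ x ≠ v}, ((Hg d D).induce {x | x ≠ u ∧ x ≠ v}).Reachable x ⟨z, hz⟩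
  have hxA : x.1 ∈ A := by
    simp only [A, mem_filter, mem_univ, true_and]
    exact ⟨x.2, SimpleGraph.Reachable.refl _⟩
  have hsub : A + BB d D ⊆ A ∪ {u, v} := by
    intro z hz
    obtain ⟨a, ha, b, hb, rfl⟩ := mem_add.1 hz
    by_cases hab : a + b ≠ u ∧ a + b ≠ v
    · rw [mem_union]
      left
      simp only [A, mem_filter, mem_univ, true_and] at ha ⊢
      obtain ⟨ha1, ha2⟩ := ha
      refine ⟨hab, ha2.trans ?_⟩
      by_cases h0 : a = a + b
      · have : (⟨a, ha1⟩ : {x : ZMod d | x ≠ u ∧ x ≠ v}) = ⟨a + b, hab⟩ := Subtype.ext h0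
        rw [this]
      · apply SimpleGraph.Adj.reachable
        rw [SimpleGraph.comap_adj]
        exact Hg_adj.2 ⟨h0, hadj_iff.2 (by simpa using hb)⟩
    · rw [mem_union]
      right
      rw [mem_insert, mem_singleton]
      tauto
  have huniv : A + BB d D = univ := by
    by_contra hne
    have h1 := expand A (BB d D) ⟨x.1, hxA⟩ (BB_zero hdD) (fun x hx => BB_neg hx) h4
      (fun H hH => BB_gen hg H hH) hne
    have h2 := card_le_card hsub
    have h3 : (A ∪ {u, v}).card ≤ A.card + 2 := by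
      refine (card_union_le _ _).trans ?_
      have : ({u, v} : Finset (ZMod d)).card ≤ 2 := card_le_two
      omega
    omega
  have hy : y.1 ∈ A ∪ {u, v} := hsub (by rw [huniv]; exact mem_univ _)
  rw [mem_union, mem_insert, mem_singleton] at hy
  rcases hy with hy | hy | hy
  · simp only [A, mem_filter, mem_univ, true_and] at hy
    obtain ⟨h1, h2⟩ := hy
    exact hxy h2
  · exact y.2.1 hy
  · exact y.2.2 hy

/-- one move: the token on a track next to the vacant track slides to it -/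
def Step (D : Finset ℕ) (σ σ' : Equiv.Perm (ZMod d)) : Prop :=
  σ' = σ ∨ ∃ v, Hadj D (σ 0) v ∧ σ' = Equiv.swap (σ 0) v * σ

/-- `σ'` can be reached from `σ` in at most `k` moves -/
def Reach (D : Finset ℕ) (k : ℕ) (σ σ' : Equiv.Perm (ZMod d)) : Prop :=
  ∃ w : ℕ → Equiv.Perm (ZMod d), w 0 = σ ∧ w k = σ' ∧ ∀ t, t < k → Step D (w t) (w (t + 1))

lemma Reach.refl (k : ℕ) (σ : Equiv.Perm (ZMod d)) : Reach D k σ σ :=
  ⟨fun _ => σ, rfl, rfl, fun _ _ => Or.inl rfl⟩

lemma Reach.one {σ σ' : Equiv.Perm (ZMod d)} (h : Step D σ σ') : Reach D 1 σ σ' := by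
  refine ⟨fun t => if t = 0 then σ else σ', by simp, by simp, ?_⟩
  intro t ht
  have : t = 0 := by omega
  subst this
  simpa using h

lemma Reach.trans {k l : ℕ} {σ σ' σ'' : Equiv.Perm (ZMod d)} (h : Reach D k σ σ')
    (h' : Reach D l σ' σ'') : Reach D (k + l) σ σ'' := by
  obtain ⟨w, h1, h2, h3⟩ := h
  obtain ⟨w', h1', h2', h3'⟩ := h'
  refine ⟨fun t => if t < k then w t else w' (t - k), ?_, ?_, ?_⟩
  · by_cases hk : 0 < k
    · simp only [hk, if_true]; exact h1
    · have : k = 0 := by omega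
      subst this
      simp only [lt_irrefl, if_false]
      rw [h1', ← h2, h1]
  · have : ¬ k + l < k := by omega
    simp only [this, if_false]
    rw [Nat.add_sub_cancel_left]
    exact h2'
  · intro t ht
    by_cases h5 : t + 1 < k
    · have h6 : t < k := by omega
      simp only [h5, h6, if_true]
      exact h3 t h6
    · by_cases h6 : t < k
      · have h7 : t + 1 = k := by omega
        simp only [h5, h6, if_true, if_false]
        have h8 := h3 t h6
        rw [h7, h2] at h8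
        rw [h7, Nat.sub_self, h1']
        exact h8
      · simp only [h5, h6, if_false]
        have h8 := h3' (t - k) (by omega)
        rw [show t + 1 - k = t - k + 1 by omega]
        exact h8

lemma Reach.mono {k l : ℕ} {σ σ' : Equiv.Perm (ZMod d)} (h : Reach D k σ σ') (hkl : k ≤ l) :
    Reach D l σ σ' := by
  have := h.trans (Reach.refl (D := D) (l - k) σ')
  rwa [Nat.add_sub_cancel' hkl] at this

/-- the vacant track moves along a walk that avoids the tracks `u` and `v` -/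
lemma hole_walk (u v : ZMod d) {a b : {x : ZMod d | x ≠ u ∧ x ≠ v}}
    (p : ((Hg d D).induce {x | x ≠ u ∧ x ≠ v}).Walk a b) :
    ∀ σ : Equiv.Perm (ZMod d), σ 0 = a.1 → ∃ σ', Reach D p.length σ σ' ∧ σ' 0 = b.1 ∧
      (∀ i, σ i = u → σ' i = u) ∧ (∀ i, σ i = v → σ' i = v) := by
  induction p with
  | nil =>
    intro σ hσ
    exact ⟨σ, Reach.refl _ _, hσ, fun i hi => hi, fun i hi => hi⟩
  | @cons a c b hac q ih =>
    intro σ hσ
    have hadj : (Hg d D).Adj a.1 c.1 := by
      rw [SimpleGraph.comap_adj] at hac; exact hac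
    have hH := (Hg_adj.1 hadj).2
    have hne := (Hg_adj.1 hadj).1
    set σ1 : Equiv.Perm (ZMod d) := Equiv.swap (σ 0) c.1 * σ with hσ1
    have hst : Step D σ σ1 := Or.inr ⟨c.1, by rw [hσ]; exact hH, rfl⟩
    have h0 : σ1 0 = c.1 := by
      rw [hσ1, Equiv.Perm.mul_apply, Equiv.swap_apply_left]
    obtain ⟨σ', h1, h2, h3, h4⟩ := ih σ1 h0
    refine ⟨σ', ?_, h2, ?_, ?_⟩
    · rw [SimpleGraph.Walk.length_cons, add_comm]
      exact (Reach.one hst).trans h1
    · intro i hi
      apply h3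
      rw [hσ1, Equiv.Perm.mul_apply, hi, Equiv.swap_apply_of_ne_of_ne]
      · rw [hσ]; exact fun h => a.2.1 h.symm
      · exact fun h => c.2.1 h.symm
    · intro i hi
      apply h4
      rw [hσ1, Equiv.Perm.mul_apply, hi, Equiv.swap_apply_of_ne_of_ne]
      · rw [hσ]; exact fun h => a.2.2 h.symm
      · exact fun h => c.2.2 h.symm

/-- any two tokens can be made adjacent -/
lemma approach [NeZero d] (hdD : d ∈ D) (hg : ∀ k : ℕ, (∀ δ ∈ D, k ∣ δ) → k = 1)
    (h4 : 4 ≤ (BB d D).card) (i j : ZMod d) (hi : i ≠ 0) (hj : j ≠ 0) (hij : i ≠ j) :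
    ∀ (m : ℕ) (σ : Equiv.Perm (ZMod d)), (Hg d D).dist (σ i) (σ j) ≤ m + 1 →
      ∃ σ', Reach D (d * m) σ σ' ∧ Hadj D (σ' i) (σ' j) := by
  classical
  intro m
  induction m with
  | zero =>
    intro σ hσ
    refine ⟨σ, Reach.refl _ _, ?_⟩
    have hne : σ i ≠ σ j := fun h => hij (σ.injective h)
    have h1 : (Hg d D).dist (σ i) (σ j) ≠ 0 := by
      rw [Ne, (Hg_conn hg).dist_eq_zero_iff]; exact hne
    have h2 : (Hg d D).dist (σ i) (σ j) = 1 := by omega
    rw [SimpleGraph.dist_eq_one_iff_adj] at h2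
    exact (Hg_adj.1 h2).2
  | succ m ih =>
    intro σ hσ
    by_cases hle : (Hg d D).dist (σ i) (σ j) ≤ m + 1
    · obtain ⟨σ', h1, h2⟩ := ih σ hle
      exact ⟨σ', h1.mono (Nat.mul_le_mul_left _ (by omega)), h2⟩
    have hd : (Hg d D).dist (σ i) (σ j) = m + 2 := by omega
    obtain ⟨p, hp⟩ := (Hg_conn hg).exists_walk_length_eq_dist (σ i) (σ j)
    rw [hd] at hp
    generalize hsj : σ j = sj at p
    cases p with
    | nil => simp at hp
    | @cons _ c _ hac q =>
      subst hsj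
      rw [SimpleGraph.Walk.length_cons] at hp
      have hcd : (Hg d D).dist c (σ j) ≤ m + 1 := by
        have := SimpleGraph.dist_le q
        omega
      have hcj : c ≠ σ j := by
        intro h
        have : (Hg d D).dist (σ i) (σ j) ≤ 1 := by
          rw [← h]
          rw [SimpleGraph.dist_eq_one_iff_adj.2 hac]
        omega
      have hci : c ≠ σ i := fun h => (Hg_adj.1 hac).1 h.symm
      have h0i : σ 0 ≠ σ i := fun h => hi (σ.injective h).symm
      have h0j : σ 0 ≠ σ j := fun h => hj (σ.injective h).symm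
      obtain ⟨q', hq'⟩ := (Hg_three hdD hg h4 (σ i) (σ j) ⟨σ 0, h0i, h0j⟩
        ⟨c, hci, hcj⟩).exists_isPath
      have hlen : q'.length < d := by
        have h1 := hq'.length_lt
        have h2 : Fintype.card {x : ZMod d | x ≠ σ i ∧ x ≠ σ j} ≤ Fintype.card (ZMod d) :=
          Fintype.card_subtype_le _
        rw [ZMod.card] at h2
        exact lt_of_lt_of_le h1 h2
      obtain ⟨σ', h1, h2, h3, h5⟩ := hole_walk (σ i) (σ j) q' σ rfl
      have h3' := h3 i rfl
      have h5' := h5 j rfl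
      simp only at h2
      set σ'' : Equiv.Perm (ZMod d) := Equiv.swap (σ' 0) (σ i) * σ' with hσ''
      have hst : Step D σ' σ'' := Or.inr ⟨σ i, by rw [h2]; exact ((Hg_adj.1 hac).2).symm, rfl⟩
      have e1 : σ'' i = c := by
        rw [hσ'', Equiv.Perm.mul_apply, h3', Equiv.swap_apply_right, h2]
      have e2 : σ'' j = σ j := by
        rw [hσ'', Equiv.Perm.mul_apply, h5', Equiv.swap_apply_of_ne_of_ne]
        · rw [h2]; exact hcj.symm
        · exact fun h => hij (σ.injective h).symm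
      obtain ⟨σ3, h6, h7⟩ := ih σ'' (by rw [e1, e2]; exact hcd)
      refine ⟨σ3, ?_, h7⟩
      have h8 := (h1.trans (Reach.one hst)).trans h6
      apply h8.mono
      rw [mul_add, mul_one]
      omega

end Pool.Agent.H55.SC
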