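import Pool.Agent.H55.SC.Slide

/-!
# The schedule of moves, and `2 (d - 1)` branch sets
-/

namespace Pool.Agent.H55.SC

open Relation Finset

variable {d : ℕ} {D : Finset ℕ}

/-- an endless schedule of moves in which any two tokens meet again and again -/
lemma exists_schedule [NeZero d] (hd2 : 2 ≤ d) (hdD : d ∈ D)
    (hg : ∀ k : ℕ, (∀ δ ∈ D, k ∣ δ) → k = 1) (h4 : 4 ≤ (BB d D).card) (K : ℕ) (hK0 : 0 < K)
    (hK : d * (d - 2) ≤ K) :
    ∃ w : ℕ → Equiv.Perm (ZMod d), w 0 = 1 ∧ (∀ t, Step D (w t) (w (t + 1))) ∧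
      ∀ e, ∀ i j : ZMod d, i ≠ 0 → j ≠ 0 → i ≠ j →
        ∃ b, K * (d * d) * e ≤ b ∧ b < K * (d * d) * (e + 1) ∧
          Hadj D (w (b + 1) i) (w (b + 1) j) := by
  classical
  have key : ∀ (σ : Equiv.Perm (ZMod d)) (c : ZMod d × ZMod d), ∃ w : ℕ → Equiv.Perm (ZMod d),
      w 0 = σ ∧ (∀ t, t < K → Step D (w t) (w (t + 1))) ∧
      (c.1 ≠ 0 → c.2 ≠ 0 → c.1 ≠ c.2 → Hadj D (w K c.1) (w K c.2)) := by
    intro σ c
    by_cases hc : c.1 ≠ 0 ∧ c.2 ≠ 0 ∧ c.1 ≠ c.2
    · have hdist : (Hg d D).dist (σ c.1) (σ c.2) ≤ (d - 2) + 1 := by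
        obtain ⟨p, hp⟩ := ((Hg_conn (d := d) hg).preconnected (σ c.1) (σ c.2)).exists_isPath
        have h1 := hp.length_lt
        rw [ZMod.card] at h1
        have h2 := SimpleGraph.dist_le p
        omega
      obtain ⟨σ', h1, h2⟩ := approach hdD hg h4 c.1 c.2 hc.1 hc.2.1 hc.2.2 (d - 2) σ hdist
      obtain ⟨w, hw0, hwK, hw⟩ := h1.mono hK
      refine ⟨w, hw0, hw, fun _ _ _ => ?_⟩
      rw [hwK]; exact h2
    · exact ⟨fun _ => σ, rfl, fun _ _ => Or.inl rfl, fun h1 h2 h3 => absurd ⟨h1, h2, h3⟩ hc⟩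
  choose F hF0 hFs hFK using key
  let c : ℕ → ZMod d × ZMod d := fun s => ((s : ZMod d), ((s / d : ℕ) : ZMod d))
  let S : ℕ → Equiv.Perm (ZMod d) := fun s => Nat.rec 1 (fun s σ => F σ (c s) K) s
  have hS : ∀ s, S (s + 1) = F (S s) (c s) K := fun s => rfl
  let w : ℕ → Equiv.Perm (ZMod d) := fun x => F (S (x / K)) (c (x / K)) (x % K)
  have hwmul : ∀ s, w (K * s) = S s := by
    intro s
    show F (S (K * s / K)) (c (K * s / K)) (K * s % K) = S s
    rw [Nat.mul_div_cancel_left _ hK0, Nat.mul_mod_right, hF0]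
  have hwin : ∀ s t, t ≤ K → w (K * s + t) = F (S s) (c s) t := by
    intro s t ht
    rcases Nat.eq_or_lt_of_le ht with h | h
    · subst h
      rw [← hS, ← hwmul (s + 1), mul_add, mul_one]
    · show F (S ((K * s + t) / K)) (c ((K * s + t) / K)) ((K * s + t) % K) = _
      rw [Nat.mul_add_div hK0, Nat.div_eq_of_lt h, add_zero, Nat.mul_add_mod, Nat.mod_eq_of_lt h]
  refine ⟨w, ?_, ?_, ?_⟩
  · have := hwmul 0
    rw [mul_zero] at this
    rw [this]
    rfl
  · intro t
    have h1 : t = K * (t / K) + t % K := (Nat.div_add_mod t K).symm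
    have h2 : t % K < K := Nat.mod_lt _ hK0
    have h3 := hwin (t / K) (t % K) h2.le
    have h4 := hwin (t / K) (t % K + 1) h2
    rw [← h1] at h3
    rw [← add_assoc, ← h1] at h4
    rw [h3, h4]
    exact hFs _ _ _ h2
  · intro e i j hi hj hij
    have hi' := ZMod.val_lt i
    have hj' := ZMod.val_lt j
    have hd0 : 0 < d := by omega
    let s := d * d * e + (d * j.val + i.val)
    have hs1 : d * j.val + i.val < d * d := by
      have h1 : d * (j.val + 1) ≤ d * d := Nat.mul_le_mul_left _ hj'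
      rw [mul_add, mul_one] at h1
      omega
    have hc : c s = (i, j) := by
      have h1 : ((s : ℕ) : ZMod d) = i := by
        simp only [s]
        push_cast
        rw [ZMod.natCast_self, ZMod.natCast_zmod_val i]
        ring
      have h2 : s / d = d * e + j.val := by
        simp only [s]
        rw [show d * d * e + (d * j.val + i.val) = d * (d * e + j.val) + i.val by ring,
          Nat.mul_add_div hd0, Nat.div_eq_of_lt hi', add_zero]
      show ((s : ZMod d), ((s / d : ℕ) : ZMod d)) = (i, j)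
      rw [h1, h2]
      push_cast
      rw [ZMod.natCast_self, ZMod.natCast_zmod_val j]
      simp
    have hb : w (K * s + K) = F (S s) (c s) K := hwin s K le_rfl
    refine ⟨K * s + K - 1, ?_, ?_, ?_⟩
    · have h1 : K * (d * d * e) ≤ K * s := Nat.mul_le_mul_left _ (by simp only [s]; omega)
      rw [mul_assoc K]
      omega
    · have h1 : K * (s + 1) ≤ K * (d * d * (e + 1)) := by
        apply Nat.mul_le_mul_left
        simp only [s]
        rw [mul_add (d * d), mul_one]
        omega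
      rw [mul_assoc K]
      rw [mul_add K s, mul_one] at h1
      omega
    · rw [show K * s + K - 1 + 1 = K * s + K by omega, hb, hc]
      exact hFK (S s) (i, j) hi hj hij

/-- `2 (d - 1)` branch sets in every long ring that is not of the two-generator type -/
theorem typeA {n m : ℕ} (hd : 3 ≤ m + 1) (hdD : m + 1 ∈ D) (hD : ∀ δ ∈ D, 1 ≤ δ ∧ δ ≤ m + 1)
    (hg : ∀ k : ℕ, (∀ δ ∈ D, k ∣ δ) → k = 1) (h4 : 4 ≤ (BB (m + 1) D).card)
    (hn : 4 * (m + 1) ^ 6 ≤ n) :
    ∃ P : {i : Fin (m + 1) // i ≠ 0} × Bool → ℕ → Prop, NM n D P := by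
  set d := m + 1 with hdm
  have hK0 : 0 < d * (d - 2) := Nat.mul_pos (by omega) (by omega)
  obtain ⟨w, hw0, hws, hwe⟩ := exists_schedule (by omega) hdD hg h4 (d * (d - 2)) hK0 le_rfl
  set E := d * (d - 2) * (d * d) with hE
  have hE0 : 0 < E := Nat.mul_pos hK0 (Nat.mul_pos (by omega) (by omega))
  let ι := ZMod.finEquiv d
  have hι0 : ι 0 = 0 := map_zero ι
  have hιne : ∀ i, i ≠ 0 → ι i ≠ 0 := by
    intro i hi h
    apply hi
    apply ι.injective
    rw [h, hι0]
  let g : ℕ → Fin (m + 1) → ZMod d → Prop := fun b i r => r = w b (ι i) ∨ r = w (b + 1) (ι i)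
  have hsw : ∀ b (i j : ZMod d), i ≠ 0 → j ≠ 0 → i ≠ j → w b i ≠ w (b + 1) j := by
    intro b i j hi hj hij h
    rcases hws b with h1 | ⟨v, _, h1⟩
    · rw [h1] at h
      exact hij ((w b).injective h)
    · rw [h1, Equiv.Perm.mul_apply] at h
      by_cases hv : w b j = v
      · rw [hv, Equiv.swap_apply_right] at h
        exact hi ((w b).injective h)
      · rw [Equiv.swap_apply_of_ne_of_ne _ hv] at h
        · exact hij ((w b).injective h)
        · exact fun h2 => hj ((w b).injective h2)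
  have hmove : ∀ b (i : ZMod d), i ≠ 0 → w b i = w (b + 1) i ∨
      Hadj D (w b i) (w (b + 1) i) := by
    intro b i hi
    rcases hws b with h1 | ⟨v, hv1, h1⟩
    · left; rw [h1]
    · rw [h1, Equiv.Perm.mul_apply]
      by_cases hv : w b i = v
      · right
        rw [hv, Equiv.swap_apply_right]
        exact hv1.symm
      · left
        rw [Equiv.swap_apply_of_ne_of_ne _ hv]
        exact fun h2 => hi ((w b).injective h2)
  have hDat : Dat n d (2 * (m + 1) * E) (2 * d) D := by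
    refine ⟨by omega, hdD, hD, le_rfl, ?_⟩
    refine le_trans ?_ hn
    obtain ⟨c, hc⟩ : ∃ c, d = c + 3 := ⟨d - 3, by omega⟩
    rw [hE, ← hdm, hc]
    rw [show c + 3 - 2 = c + 1 by omega]
    ring_nf
    nlinarith [sq_nonneg c, pow_nonneg (Nat.zero_le c) 3, pow_nonneg (Nat.zero_le c) 4,
      pow_nonneg (Nat.zero_le c) 5, pow_nonneg (Nat.zero_le c) 6]
  have hFrm : Frm n d (2 * (m + 1) * E) D 0 g := by
    refine ⟨?_, ?_, ?_⟩
    · intro b _ i j hi hj hij r hr hr'
      have hi' := hιne i hi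
      have hj' := hιne j hj
      have hij' : ι i ≠ ι j := fun h => hij (ι.injective h)
      rcases hr with hr | hr <;> rcases hr' with hr' | hr'
      · exact hij' ((w b).injective (hr.symm.trans hr'))
      · exact hsw b _ _ hi' hj' hij' (hr.symm.trans hr')
      · exact hsw b _ _ hj' hi' hij'.symm (hr'.symm.trans hr)
      · exact hij' ((w (b + 1)).injective (hr.symm.trans hr'))
    · intro b _ i hi r r' hr hr'
      have hi' := hιne i hi
      have hm := hmove b (ι i) hi'
      have h1 : g b i (w b (ι i)) := Or.inl rfl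
      have h2 : g b i (w (b + 1) (ι i)) := Or.inr rfl
      rcases hr with hr | hr <;> rcases hr' with hr' | hr' <;> subst hr <;> subst hr'
      · exact ReflTransGen.refl
      · rcases hm with hm | hm
        · rw [← hm]
        · exact ReflTransGen.single ⟨h1, h2, hm⟩
      · rcases hm with hm | hm
        · rw [← hm]
        · exact ReflTransGen.single ⟨h2, h1, hm.symm⟩
      · exact ReflTransGen.refl
    · intro b _ i _
      exact ⟨w (b + 1) (ι i), Or.inr rfl, Or.inl rfl⟩
  let τ : Equiv.Perm (Fin (m + 1)) :=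
    ι.toEquiv.trans ((w (2 * (m + 1) * E)).trans ((Equiv.subRight (n : ZMod d)).trans
      ι.toEquiv.symm))
  have hτ : ∀ i, ι (τ i) = w (2 * (m + 1) * E) (ι i) - (n : ZMod d) := by
    intro i
    simp [τ]
  refine ring hE0 hDat hFrm τ ?_ ?_
  · intro e _ i j hi hj hij
    obtain ⟨b, hb1, hb2, hb3⟩ := hwe e (ι i) (ι j) (hιne i hi) (hιne j hj)
      (fun h => hij (ι.injective h))
    exact ⟨b, hb1, hb2, _, _, Or.inr rfl, Or.inr rfl, hb3⟩
  · intro i _ _
    refine ⟨w (2 * (m + 1) * E) (ι i), Or.inl rfl, Or.inl ?_⟩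
    rw [hτ, hw0]
    rfl

end Pool.Agent.H55.SC
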